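import Pool.Agent.W574.SM.Defs

set_option autoImplicit false
set_option linter.unusedSectionVars false
set_option linter.unusedVariables false

/-! # The adjoint action of the Weyl algebra on test functions -/

namespace Pool.Agent.Y230.AR

open MvPolynomial MeasureTheory Pool.Agent.W574.SM Complex

variable {σ : Type} [Fintype σ] [DecidableEq σ]

/-- The real derivative of a polynomial function. -/
noncomputable def dL (g : MvPolynomial σ ℂ) (x : σ → ℂ) : (σ → ℂ) →L[ℝ] ℂ :=
  ∑ i, (ContinuousLinearMap.mul ℝ ℂ (eval x (pderiv i g))).comp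
    (ContinuousLinearMap.proj (R := ℝ) (φ := fun _ : σ => ℂ) i)

theorem dL_apply (g : MvPolynomial σ ℂ) (x v : σ → ℂ) :
    dL g x v = ∑ i, eval x (pderiv i g) * v i := by
  rw [dL, ContinuousLinearMap.sum_apply]
  rfl

theorem hasFDerivAt_eval (g : MvPolynomial σ ℂ) (x : σ → ℂ) :
    HasFDerivAt (fun x : σ → ℂ => eval x g) (dL g x) x := by
  induction g using MvPolynomial.induction_on with
  | C a =>
    have h : dL (C a : MvPolynomial σ ℂ) x = 0 := by
      ext v
      rw [dL_apply]
      simp
    rw [h]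
    simp only [eval_C]
    exact hasFDerivAt_const a x
  | add p q hp hq =>
    have h := hp.add hq
    have h1 : dL (p + q) x = dL p x + dL q x := by
      ext v
      rw [ContinuousLinearMap.add_apply, dL_apply, dL_apply, dL_apply, ← Finset.sum_add_distrib]
      refine Finset.sum_congr rfl fun i _ => ?_
      rw [map_add, map_add, add_mul]
    rw [h1]
    refine h.congr_of_eventuallyEq ?_
    filter_upwards with y
    simp
  | mul_X p n hp =>
    have hX : HasFDerivAt (fun x : σ → ℂ => x n)
        (ContinuousLinearMap.proj (R := ℝ) (φ := fun _ : σ => ℂ) n) x :=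
      (ContinuousLinearMap.proj (R := ℝ) (φ := fun _ : σ => ℂ) n).hasFDerivAt
    have h := hp.mul hX
    have h1 : dL (p * X n) x =
        eval x p • (ContinuousLinearMap.proj (R := ℝ) (φ := fun _ : σ => ℂ) n) +
        x n • dL p x := by
      ext v
      rw [ContinuousLinearMap.add_apply, dL_apply, ContinuousLinearMap.smul_apply,
        ContinuousLinearMap.smul_apply, dL_apply, ContinuousLinearMap.proj_apply, smul_eq_mul,
        smul_eq_mul, Finset.mul_sum]
      have h2 : ∀ i, eval x (pderiv i (p * X n)) * v i =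
          (if i = n then eval x p * v n else 0) + x n * (eval x (pderiv i p) * v i) := by
        intro i
        rw [Derivation.leibniz, pderiv_X, map_add, smul_eq_mul, map_mul,
          smul_eq_mul, map_mul, eval_X]
        by_cases h : i = n
        · subst h; simp; ring
        · rw [if_neg h, Pi.single_eq_of_ne (Ne.symm h), map_zero, mul_zero]; ring
      rw [Finset.sum_congr rfl fun i _ => h2 i, Finset.sum_add_distrib]
      congr 1
      rw [Finset.sum_ite_eq' Finset.univ n, if_pos (Finset.mem_univ n)]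
    rw [h1]
    refine h.congr_of_eventuallyEq ?_
    filter_upwards with y
    simp

theorem continuous_ev (g : MvPolynomial σ ℂ) : Continuous fun x : σ → ℂ => eval x g :=
  continuous_iff_continuousAt.2 fun x => (hasFDerivAt_eval g x).continuousAt

theorem dL_single (g : MvPolynomial σ ℂ) (x : σ → ℂ) (i : σ) (w : ℂ) :
    dL g x (Pi.single i w) = eval x (pderiv i g) * w := by
  rw [dL_apply, Finset.sum_eq_single i]
  · simp
  · intro j _ hj
    simp [Pi.single_eq_of_ne hj]
  · intro h; exact absurd (Finset.mem_univ i) h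

/-- Test functions with support in `K`. -/
def Test (K : Set (σ → ℂ)) (φ : (σ → ℂ) → ℂ) : Prop :=
  ContDiff ℝ ((⊤ : ℕ∞) : WithTop ℕ∞) φ ∧ tsupport φ ⊆ K

/-- The function `g \bar h`. -/
noncomputable def gh (g h : MvPolynomial σ ℂ) (x : σ → ℂ) : ℂ :=
  eval x g * (starRingEnd ℂ) (eval x h)

theorem continuous_gh (g h : MvPolynomial σ ℂ) : Continuous (gh g h) :=
  (continuous_ev g).mul (Complex.continuous_conj.comp (continuous_ev h))

/-- the derivative of `g \bar h` -/
noncomputable def dgh (g h : MvPolynomial σ ℂ) (x : σ → ℂ) : (σ → ℂ) →L[ℝ] ℂ :=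
  eval x g • ((conjCLE : ℂ →L[ℝ] ℂ).comp (dL h x)) + (starRingEnd ℂ) (eval x h) • dL g x

theorem hasFDerivAt_gh (g h : MvPolynomial σ ℂ) (x : σ → ℂ) :
    HasFDerivAt (gh g h) (dgh g h x) x := by
  have h1 : HasFDerivAt (fun x : σ → ℂ => (starRingEnd ℂ) (eval x h))
      ((conjCLE : ℂ →L[ℝ] ℂ).comp (dL h x)) x :=
    (conjCLE : ℂ →L[ℝ] ℂ).hasFDerivAt.comp x (hasFDerivAt_eval h x)
  exact (hasFDerivAt_eval g x).mul h1

theorem dgh_single (g h : MvPolynomial σ ℂ) (x : σ → ℂ) (i : σ) (w : ℂ) :
    dgh g h x (Pi.single i w) = gh g (pderiv i h) x * (starRingEnd ℂ) w + gh (pderiv i g) h x * w := by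
  rw [dgh, ContinuousLinearMap.add_apply, ContinuousLinearMap.smul_apply,
    ContinuousLinearMap.smul_apply, ContinuousLinearMap.comp_apply, dL_single, dL_single]
  simp only [gh, smul_eq_mul, ContinuousLinearEquiv.coe_coe, conjCLE_apply, map_mul]
  ring

theorem integrable_mul {K : Set (σ → ℂ)} (hK : IsCompact K) {G φ : (σ → ℂ) → ℂ}
    (hG : Continuous G) (hφ : Continuous φ) (hs : tsupport φ ⊆ K) :
    Integrable (fun x => G x * φ x) := by
  refine Continuous.integrable_of_hasCompactSupport (hG.mul hφ) ?_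
  exact HasCompactSupport.mul_left (f := G) (hK.of_isClosed_subset (isClosed_tsupport φ) hs)

/-- Integration by parts. -/
theorem int_parts {K : Set (σ → ℂ)} (hK : IsCompact K) (g h : MvPolynomial σ ℂ)
    {φ : (σ → ℂ) → ℂ} (hφ : Test K φ) (v : σ → ℂ) :
    ∫ x, gh g h x * fderiv ℝ φ x v = - ∫ x, dgh g h x v * φ x := by
  have hc : Continuous φ := hφ.1.continuous
  have hd : Differentiable ℝ φ := hφ.1.differentiable (by simp)
  have hfc : Continuous (fun x => fderiv ℝ φ x v) :=
    (hφ.1.continuous_fderiv (by simp)).clm_apply continuous_const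
  have hgc : Continuous (fun x => fderiv ℝ (gh g h) x v) := by
    have h1 : (fun x => fderiv ℝ (gh g h) x v) = fun x =>
        ∑ i, (gh g (pderiv i h) x * (starRingEnd ℂ) (v i) + gh (pderiv i g) h x * v i) := by
      funext x
      rw [(hasFDerivAt_gh g h x).fderiv]
      have h2 : v = ∑ i, Pi.single i (v i) := by
        rw [Finset.univ_sum_single]
      conv_lhs => rw [h2, map_sum]
      exact Finset.sum_congr rfl fun i _ => dgh_single g h x i (v i)
    rw [h1]
    refine continuous_finsetSum _ fun i _ => ?_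
    exact ((continuous_gh _ _).mul continuous_const).add ((continuous_gh _ _).mul continuous_const)
  have hs' : tsupport (fun x => fderiv ℝ φ x v) ⊆ K := by
    refine subset_trans ?_ hφ.2
    refine subset_trans ?_ (tsupport_fderiv_subset ℝ (f := φ))
    exact closure_mono fun x hx => by
      rw [Function.mem_support] at hx ⊢
      intro h0
      apply hx
      rw [h0]
      rfl
  rw [integral_mul_fderiv_eq_neg_fderiv_mul_of_integrable]
  · congr 1
    refine integral_congr_ae (Filter.Eventually.of_forall fun x => ?_)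
    simp only
    rw [(hasFDerivAt_gh g h x).fderiv]
  · exact integrable_mul hK hgc hc hφ.2
  · exact integrable_mul hK (continuous_gh g h) hfc hs'
  · exact integrable_mul hK (continuous_gh g h) hc hφ.2
  · exact fun x _ => (hasFDerivAt_gh g h x).differentiableAt
  · exact fun x _ => hd x

theorem Test.fderiv {K : Set (σ → ℂ)} {φ : (σ → ℂ) → ℂ} (hφ : Test K φ) (v : σ → ℂ) :
    Test K (fun x => fderiv ℝ φ x v) := by
  refine ⟨(hφ.1.fderiv_right (m := ((⊤ : ℕ∞) : WithTop ℕ∞)) (by simp)).clm_apply contDiff_const, ?_⟩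
  refine subset_trans ?_ hφ.2
  refine subset_trans ?_ (tsupport_fderiv_subset ℝ (f := φ))
  exact closure_mono fun x hx => by
    rw [Function.mem_support] at hx ⊢
    intro h0
    apply hx
    rw [h0]
    rfl

theorem Test.add {K : Set (σ → ℂ)} {φ ψ : (σ → ℂ) → ℂ} (hφ : Test K φ) (hψ : Test K ψ) :
    Test K (fun x => φ x + ψ x) :=
  ⟨hφ.1.add hψ.1, (tsupport_add φ ψ).trans (Set.union_subset hφ.2 hψ.2)⟩

theorem Test.mul {K : Set (σ → ℂ)} {φ G : (σ → ℂ) → ℂ} (hφ : Test K φ)
    (hG : ContDiff ℝ ((⊤ : ℕ∞) : WithTop ℕ∞) G) :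
    Test K (fun x => G x * φ x) :=
  ⟨hG.mul hφ.1, (tsupport_mul_subset_right (f := G) (g := φ)).trans hφ.2⟩

theorem Test.const_mul {K : Set (σ → ℂ)} {φ : (σ → ℂ) → ℂ} (hφ : Test K φ) (c : ℂ) :
    Test K (fun x => c * φ x) := hφ.mul contDiff_const

/-- **The adjoint action.** -/
theorem adj {K : Set (σ → ℂ)} (hK : IsCompact K) (Q : Module.End ℂ (MvPolynomial σ ℂ))
    (hQ : Q ∈ weyl σ) : ∀ φ : (σ → ℂ) → ℂ, Test K φ → ∃ ψ : (σ → ℂ) → ℂ, Test K ψ ∧
      ∀ g h : MvPolynomial σ ℂ, ∫ x, gh (Q g) h x * φ x = ∫ x, gh g h x * ψ x := by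
  induction hQ using Algebra.adjoin_induction with
  | mem Q hQ =>
    intro φ hφ
    rcases hQ with ⟨i, rfl⟩ | ⟨i, rfl⟩
    · refine ⟨fun x => x i * φ x, hφ.mul ?_, fun g h => ?_⟩
      · exact (ContinuousLinearMap.proj (R := ℝ) (φ := fun _ : σ => ℂ) i).contDiff
      · refine integral_congr_ae (Filter.Eventually.of_forall fun x => ?_)
        simp only [gh, LinearMap.mulLeft_apply, map_mul, eval_X]
        ring
    · refine ⟨fun x => -(1 / 2) * (fderiv ℝ φ x (Pi.single i 1) +
        (-I) * fderiv ℝ φ x (Pi.single i I)), ?_, fun g h => ?_⟩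
      · exact ((hφ.fderiv _).add ((hφ.fderiv _).const_mul _)).const_mul _
      · have hc : Continuous φ := hφ.1.continuous
        have e1 := int_parts hK g h hφ (Pi.single i 1)
        have e2 := int_parts hK g h hφ (Pi.single i I)
        have i1 : Integrable (fun x => gh g h x * fderiv ℝ φ x (Pi.single i 1)) :=
          integrable_mul hK (continuous_gh g h) (hφ.fderiv _).1.continuous (hφ.fderiv _).2
        have i2 : Integrable (fun x => gh g h x * fderiv ℝ φ x (Pi.single i I)) :=
          integrable_mul hK (continuous_gh g h) (hφ.fderiv _).1.continuous (hφ.fderiv _).2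
        have i3 : Integrable (fun x => gh (pderiv i g) h x * φ x) :=
          integrable_mul hK (continuous_gh _ _) hc hφ.2
        have i4 : Integrable (fun x => gh g (pderiv i h) x * φ x) :=
          integrable_mul hK (continuous_gh _ _) hc hφ.2
        have d1 : ∫ x, dgh g h x (Pi.single i 1) * φ x =
            (∫ x, gh g (pderiv i h) x * φ x) + ∫ x, gh (pderiv i g) h x * φ x := by
          rw [← integral_add i4 i3]
          refine integral_congr_ae (Filter.Eventually.of_forall fun x => ?_)
          simp only [dgh_single, map_one]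
          ring
        have d2 : ∫ x, dgh g h x (Pi.single i I) * φ x =
            (-I) * (∫ x, gh g (pderiv i h) x * φ x) + I * ∫ x, gh (pderiv i g) h x * φ x := by
          rw [← integral_const_mul, ← integral_const_mul, ← integral_add (i4.const_mul _) (i3.const_mul _)]
          refine integral_congr_ae (Filter.Eventually.of_forall fun x => ?_)
          simp only [dgh_single, conj_I]
          ring
        have e3 : ∫ x, gh g h x * (-(1 / 2) * (fderiv ℝ φ x (Pi.single i 1) +
            (-I) * fderiv ℝ φ x (Pi.single i I))) =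
            -(1 / 2) * ((∫ x, gh g h x * fderiv ℝ φ x (Pi.single i 1)) + (-I) *
              ∫ x, gh g h x * fderiv ℝ φ x (Pi.single i I)) := by
          rw [← integral_const_mul, ← integral_add i1 (i2.const_mul _), ← integral_const_mul]
          refine integral_congr_ae (Filter.Eventually.of_forall fun x => ?_)
          simp only
          ring
        rw [e3, e1, e2, d1, d2]
        change ∫ x, gh (pderiv i g) h x * φ x = _
        linear_combination (1 / 2 * (∫ x, gh (pderiv i g) h x * φ x) -
          1 / 2 * ∫ x, gh g (pderiv i h) x * φ x) * I_mul_I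
  | algebraMap r =>
    intro φ hφ
    refine ⟨fun x => r * φ x, hφ.const_mul r, fun g h => ?_⟩
    refine integral_congr_ae (Filter.Eventually.of_forall fun x => ?_)
    simp only [gh, Module.algebraMap_end_apply, smul_eval]
    ring
  | add P Q _ _ hP hQ =>
    intro φ hφ
    obtain ⟨ψ1, h1, e1⟩ := hP φ hφ
    obtain ⟨ψ2, h2, e2⟩ := hQ φ hφ
    refine ⟨fun x => ψ1 x + ψ2 x, h1.add h2, fun g h => ?_⟩
    have j1 : ∀ g h, ∀ ψ, Test K ψ → Integrable (fun x => gh g h x * ψ x) := fun g h ψ hψ =>
      integrable_mul hK (continuous_gh _ _) hψ.1.continuous hψ.2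
    have e3 : ∫ x, gh ((P + Q) g) h x * φ x = (∫ x, gh (P g) h x * φ x) + ∫ x, gh (Q g) h x * φ x := by
      rw [← integral_add (j1 _ _ _ hφ) (j1 _ _ _ hφ)]
      refine integral_congr_ae (Filter.Eventually.of_forall fun x => ?_)
      simp only [gh, LinearMap.add_apply, map_add]
      ring
    rw [e3, e1, e2, ← integral_add (j1 _ _ _ h1) (j1 _ _ _ h2)]
    refine integral_congr_ae (Filter.Eventually.of_forall fun x => ?_)
    simp only
    ring
  | mul P Q _ _ hP hQ =>
    intro φ hφ
    obtain ⟨ψ1, h1, e1⟩ := hP φ hφ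
    obtain ⟨ψ2, h2, e2⟩ := hQ ψ1 h1
    refine ⟨ψ2, h2, fun g h => ?_⟩
    rw [Module.End.mul_apply, e1, e2]

end Pool.Agent.Y230.AR
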