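import Pool.Agent.Y230.AR.Key

set_option autoImplicit false
set_option linter.unusedSectionVars false
set_option linter.unusedVariables false

/-! # The key estimate -/

namespace Pool.Agent.Y230.AR

open MvPolynomial MeasureTheory Pool.Agent.W574.SM Complex

theorem poly_le_exp' (T : Polynomial ℂ) (δ : ℝ) (hδ : 0 < δ) : ∃ K : ℝ, 0 ≤ K ∧ ∀ z : ℂ,
    ‖T.eval z‖ ≤ K * Real.exp (δ * ‖z‖) := by
  induction T using Polynomial.induction_on' with
  | add p q hp hq =>
    obtain ⟨K, hK, h1⟩ := hp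
    obtain ⟨L, hL, h2⟩ := hq
    refine ⟨K + L, by positivity, fun m => ?_⟩
    rw [Polynomial.eval_add]
    refine (norm_add_le _ _).trans ?_
    rw [add_mul]
    exact add_le_add (h1 m) (h2 m)
  | monomial n c =>
    refine ⟨‖c‖ * (n.factorial / δ ^ n), by positivity, fun z => ?_⟩
    rw [Polynomial.eval_monomial, norm_mul, norm_pow, mul_assoc]
    refine mul_le_mul_of_nonneg_left ?_ (norm_nonneg c)
    have h1 := Real.pow_div_factorial_le_exp (δ * ‖z‖) (by positivity) n
    rw [div_le_iff₀ (by positivity), mul_pow] at h1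
    rw [div_mul_eq_mul_div, le_div_iff₀ (by positivity)]
    calc _ = δ ^ n * ‖z‖ ^ n := by ring
      _ ≤ _ := h1
      _ = _ := by ring

variable {σ ι : Type} [Fintype σ] [DecidableEq σ] [Fintype ι]

theorem norm_le_sqrt (f : ι → MvPolynomial σ ℂ) (x : σ → ℂ) (j : ι) :
    ‖eval x (f j)‖ ≤ Real.sqrt (Nf f x) := by
  apply Real.le_sqrt_of_sq_le
  exact Finset.single_le_sum (f := fun j => ‖eval x (f j)‖ ^ 2) (fun j _ => by positivity)
    (Finset.mem_univ j)

/-- The bound of the right hand side. -/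
theorem Rf_bound (f : ι → MvPolynomial σ ℂ) (c : ι → ℤ) (hc : ∑ j, c j = 1)
    (T : ι → Polynomial ℂ) : ∃ K : ℝ, 0 ≤ K ∧ ∀ τ : ℝ, 0 ≤ τ → ∀ x,
      ‖Rf f c T τ x‖ ≤ K * (Real.sqrt (Nf f x) * Real.exp (-(τ * Nf f x) / 2)) := by
  set r : ℝ := (Fintype.card ι : ℝ) + 1 with hr
  have hr0 : 0 < r := by positivity
  set δ : ℝ := 1 / (4 * r) with hδ
  have hδ0 : 0 < δ := by positivity
  choose K hK hKT using fun j => poly_le_exp' (T j) δ hδ0
  set D : ℕ := ∑ j, (-c j).toNat with hD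
  have hD1 : ∑ j, (c j).toNat = D + 1 := by
    have h1 : ∀ j, ((c j).toNat : ℤ) = c j + ((-c j).toNat : ℤ) := by intro j; omega
    have h2 : ((∑ j, (c j).toNat : ℕ) : ℤ) = ((D + 1 : ℕ) : ℤ) := by
      push_cast
      rw [hD, Finset.sum_congr rfl fun j _ => h1 j, Finset.sum_add_distrib, hc]
      push_cast
      ring
    exact_mod_cast h2
  refine ⟨(∏ j, K j) * (D.factorial * 4 ^ D), mul_nonneg (Finset.prod_nonneg fun j _ => hK j)
    (by positivity), fun τ hτ x => ?_⟩
  set N := Nf f x with hN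
  have hN0 : 0 ≤ N := Nf_nonneg f x
  set ν := Real.sqrt N with hν
  have hν0 : 0 ≤ ν := Real.sqrt_nonneg _
  have hν2 : ν * ν = N := Real.mul_self_sqrt hN0
  have hfj : ∀ j, ‖eval x (f j)‖ ≤ ν := norm_le_sqrt f x
  rw [Rf, norm_prod]
  have h1 : ∀ j, ‖((-(τ : ℂ) * (starRingEnd ℂ) (eval x (f j))) ^ (-c j).toNat *
        (eval x (f j)) ^ (c j).toNat * (T j).eval (-(τ : ℂ) * (starRingEnd ℂ) (eval x (f j)) *
          eval x (f j)) * exp (-(τ : ℂ) * (starRingEnd ℂ) (eval x (f j)) * eval x (f j)))‖ ≤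
      ((τ * ν) ^ (-c j).toNat * ν ^ (c j).toNat) * (K j * Real.exp (δ * (τ * N))) *
        Real.exp (-(τ * ‖eval x (f j)‖ ^ 2)) := by
    intro j
    have e1 : -(τ : ℂ) * (starRingEnd ℂ) (eval x (f j)) * eval x (f j) =
        ((-(τ * ‖eval x (f j)‖ ^ 2) : ℝ) : ℂ) := by
      rw [mul_assoc, Complex.conj_mul']
      push_cast
      ring
    rw [norm_mul, norm_mul, norm_mul, e1, norm_pow, norm_pow, norm_mul, norm_neg, Complex.norm_real,
      RCLike.norm_conj, Real.norm_eq_abs, abs_of_nonneg hτ, Complex.norm_exp, Complex.ofReal_re]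
    refine mul_le_mul_of_nonneg_right ?_ (Real.exp_pos _).le
    refine mul_le_mul ?_ ?_ (norm_nonneg _) (by positivity)
    · refine mul_le_mul ?_ ?_ (by positivity) (by positivity)
      · exact pow_le_pow_left₀ (by positivity) (mul_le_mul_of_nonneg_left (hfj j) hτ) _
      · exact pow_le_pow_left₀ (norm_nonneg _) (hfj j) _
    · refine (hKT j _).trans ?_
      refine mul_le_mul_of_nonneg_left ?_ (hK j)
      apply Real.exp_le_exp.2
      refine mul_le_mul_of_nonneg_left ?_ hδ0.le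
      rw [Complex.norm_real, Real.norm_eq_abs, abs_neg, abs_of_nonneg (by positivity)]
      refine mul_le_mul_of_nonneg_left ?_ hτ
      exact Finset.single_le_sum (f := fun j => ‖eval x (f j)‖ ^ 2) (fun j _ => by positivity)
        (Finset.mem_univ j)
  refine (Finset.prod_le_prod (fun j _ => norm_nonneg _) fun j _ => h1 j).trans ?_
  rw [Finset.prod_mul_distrib, Finset.prod_mul_distrib, Finset.prod_mul_distrib,
    Finset.prod_mul_distrib, Finset.prod_pow_eq_pow_sum, Finset.prod_pow_eq_pow_sum, hD1, ← hD,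
    Finset.prod_const, Finset.card_univ, ← Real.exp_sum, Finset.sum_neg_distrib, ← Finset.mul_sum]
  have h2 : ∑ j, ‖eval x (f j)‖ ^ 2 = N := rfl
  rw [h2, ← Real.exp_nat_mul]
  have h3 : (τ * ν) ^ D * ν ^ (D + 1) = (τ * N) ^ D * ν := by
    rw [← hν2, mul_pow, mul_pow, mul_pow, pow_succ]
    ring
  have hτN : 0 ≤ τ * N := mul_nonneg hτ hN0
  have h4 : (τ * N) ^ D ≤ D.factorial * 4 ^ D * Real.exp (τ * N / 4) := by
    have h5 := Real.pow_div_factorial_le_exp (τ * N / 4) (by positivity) D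
    rw [div_le_iff₀ (by positivity), div_pow, div_le_iff₀ (by positivity)] at h5
    calc _ ≤ _ := h5
      _ = _ := by ring
  have h5 : Real.exp ((Fintype.card ι : ℝ) * (δ * (τ * N))) ≤ Real.exp (τ * N / 4) := by
    apply Real.exp_le_exp.2
    have h6 : (Fintype.card ι : ℝ) * δ ≤ 1 / 4 := by
      rw [hδ, mul_one_div, div_le_div_iff₀ (by positivity) (by positivity)]
      rw [hr]
      linarith
    calc _ = (Fintype.card ι : ℝ) * δ * (τ * N) := by ring
      _ ≤ 1 / 4 * (τ * N) := mul_le_mul_of_nonneg_right h6 hτN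
      _ = _ := by ring
  rw [h3]
  have hPK : 0 ≤ ∏ j, K j := Finset.prod_nonneg fun j _ => hK j
  calc (τ * N) ^ D * ν * ((∏ j, K j) * Real.exp ((Fintype.card ι : ℝ) * (δ * (τ * N)))) *
        Real.exp (-(τ * N)) ≤ (D.factorial * 4 ^ D * Real.exp (τ * N / 4)) * ν *
          ((∏ j, K j) * Real.exp (τ * N / 4)) * Real.exp (-(τ * N)) := by
        gcongr
    _ = (∏ j, K j) * (D.factorial * 4 ^ D) * (ν * (Real.exp (τ * N / 4) * Real.exp (τ * N / 4) *
        Real.exp (-(τ * N)))) := by ring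
    _ = _ := by
        rw [← Real.exp_add, ← Real.exp_add]
        congr 3
        ring

end Pool.Agent.Y230.AR
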