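import Pool.Agent.Y230.AR.Multi
import Pool.Agent.Y230.AR.Adj

set_option autoImplicit false
set_option linter.unusedSectionVars false
set_option linter.unusedVariables false

/-! # The functional equation, integrated against exponentials -/

namespace Pool.Agent.Y230.AR

open MvPolynomial MeasureTheory Pool.Agent.W574.SM Complex

variable {σ ι : Type} [Fintype σ] [DecidableEq σ] [Fintype ι]

/-- `∑ |f_j| ^ 2` -/
noncomputable def Nf (f : ι → MvPolynomial σ ℂ) (x : σ → ℂ) : ℝ := ∑ j, ‖eval x (f j)‖ ^ 2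

theorem Nf_nonneg (f : ι → MvPolynomial σ ℂ) (x : σ → ℂ) : 0 ≤ Nf f x :=
  Finset.sum_nonneg fun j _ => by positivity

theorem continuous_Nf (f : ι → MvPolynomial σ ℂ) : Continuous (Nf f) :=
  continuous_finsetSum _ fun j _ => ((continuous_ev (f j)).norm.pow 2)

/-- Interchange of sum and integral. -/
theorem hasSum_int {κ : Type} [Countable κ] {K : Set (σ → ℂ)} (hK : IsCompact K)
    (G : κ → (σ → ℂ) → ℂ) (hG : ∀ n, Continuous (G n)) (B : κ → ℝ) (hB : Summable B)
    (hGB : ∀ n, ∀ x ∈ K, ‖G n x‖ ≤ B n) (S : (σ → ℂ) → ℂ)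
    (hS : ∀ x, HasSum (fun n => G n x) (S x)) {φ : (σ → ℂ) → ℂ} (hφ : Test K φ) :
    HasSum (fun n => ∫ x, G n x * φ x) (∫ x, S x * φ x) := by
  have hc : Continuous φ := hφ.1.continuous
  refine hasSum_integral_of_dominated_convergence (fun n x => B n * ‖φ x‖)
    (fun n => ((hG n).mul hc).aestronglyMeasurable) ?_ ?_ ?_ ?_
  · intro n
    refine Filter.Eventually.of_forall fun x => ?_
    rw [norm_mul]
    by_cases hx : x ∈ K
    · exact mul_le_mul_of_nonneg_right (hGB n x hx) (norm_nonneg _)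
    · have : φ x = 0 := by
        by_contra h
        exact hx (hφ.2 (subset_tsupport φ h))
      rw [this]
      simp
  · exact Filter.Eventually.of_forall fun x => hB.mul_right _
  · have h1 : (fun x => ∑' n, B n * ‖φ x‖) = fun x => (∑' n, B n) * ‖φ x‖ := by
      funext x
      rw [tsum_mul_right]
    rw [h1]
    refine Integrable.const_mul ?_ _
    exact (Continuous.integrable_of_hasCompactSupport hc
      (hK.of_isClosed_subset (isClosed_tsupport φ) hφ.2)).norm
  · exact Filter.Eventually.of_forall fun x => (hS x).mul_right _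

/-- bounds of the polynomials on a compact set -/
theorem exists_bd {K : Set (σ → ℂ)} (hK : IsCompact K) (f : ι → MvPolynomial σ ℂ) :
    ∃ M : ℝ, 0 ≤ M ∧ ∀ x ∈ K, ∀ j, ‖eval x (f j)‖ ≤ M := by
  obtain ⟨M, hM⟩ := hK.exists_bound_of_continuousOn (f := Nf f) (continuous_Nf f).continuousOn
  refine ⟨Real.sqrt M, Real.sqrt_nonneg _, fun x hx j => ?_⟩
  apply Real.le_sqrt_of_sq_le
  refine le_trans ?_ (le_trans (le_abs_self _) (hM x hx))
  exact Finset.single_le_sum (f := fun j => ‖eval x (f j)‖ ^ 2) (fun j _ => by positivity)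
    (Finset.mem_univ j)

theorem Nf_eq (f : ι → MvPolynomial σ ℂ) (x : σ → ℂ) (τ : ℝ) :
    ∑ j, -(τ : ℂ) * (starRingEnd ℂ) (eval x (f j)) * eval x (f j) = -(τ * Nf f x : ℂ) := by
  rw [Nf]
  push_cast
  rw [Finset.mul_sum, ← Finset.sum_neg_distrib]
  refine Finset.sum_congr rfl fun j _ => ?_
  rw [mul_assoc, ← Complex.conj_mul', mul_comm ((starRingEnd ℂ) _) (eval x (f j))]
  ring

/-- The right hand side, before the summation. -/
noncomputable def rterm (f : ι → MvPolynomial σ ℂ) (c : ι → ℤ) (β : ι → ℕ) (τ : ℝ) (x : σ → ℂ)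
    (j : ι) (n : ℕ) : ℂ :=
  (-(τ : ℂ) * (starRingEnd ℂ) (eval x (f j))) ^ n / (n.factorial : ℂ) * ((n : ℂ) ^ β j *
      ((if c j < 0 then n.choose (-c j).toNat else 1 : ℕ) : ℂ) *
        (eval x (f j)) ^ ((n : ℤ) + c j).toNat)

theorem sum_lhs {K : Set (σ → ℂ)} (hK : IsCompact K) (f : ι → MvPolynomial σ ℂ)
    (b T : Polynomial ℂ) (hT : SerG b T) (τ : ℝ) {φ : (σ → ℂ) → ℂ} (hφ : Test K φ) :
    HasSum (fun n : ι → ℕ => (∏ j, (-(τ : ℂ)) ^ n j / ((n j).factorial : ℂ)) *
      ∫ x, gh (C (b.eval ((∑ j, n j : ℕ) : ℂ)) * ∏ j, f j ^ n j) (∏ j, f j ^ n j) x * φ x)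
      (∫ x, T.eval (-(τ * Nf f x : ℂ)) * exp (-(τ * Nf f x : ℂ)) * φ x) := by
  obtain ⟨M, hM, hfM⟩ := exists_bd hK f
  set z : (σ → ℂ) → ι → ℂ := fun x j => -(τ : ℂ) * (starRingEnd ℂ) (eval x (f j)) * eval x (f j)
    with hz
  set G : (ι → ℕ) → (σ → ℂ) → ℂ := fun n x =>
    (∏ j, z x j ^ n j / ((n j).factorial : ℂ)) * b.eval ((∑ j, n j : ℕ) : ℂ) with hG
  have hzc : ∀ j, Continuous fun x => z x j := fun j =>
    (continuous_const.mul (Complex.continuous_conj.comp (continuous_ev (f j)))).mul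
      (continuous_ev (f j))
  have hGc : ∀ n, Continuous (G n) := fun n =>
    (continuous_finsetProd _ fun j _ => ((hzc j).pow _).div_const _).mul continuous_const
  have hs := (hasSum_total b T hT (fun _ : ι => ((|τ| * M ^ 2 : ℝ) : ℂ))).summable.norm
  have hzb : ∀ x ∈ K, ∀ j, ‖z x j‖ ≤ |τ| * M ^ 2 := by
    intro x hx j
    rw [hz]
    simp only
    rw [norm_mul, norm_mul, norm_neg, Complex.norm_real, RCLike.norm_conj, Real.norm_eq_abs,
      mul_assoc, ← sq]
    refine mul_le_mul_of_nonneg_left ?_ (abs_nonneg τ)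
    exact pow_le_pow_left₀ (norm_nonneg _) (hfM x hx j) 2
  have h1 := hasSum_int hK G hGc _ hs (by
    intro n x hx
    rw [hG]
    simp only
    rw [norm_mul, norm_mul]
    refine mul_le_mul_of_nonneg_right ?_ (norm_nonneg _)
    rw [norm_prod, norm_prod]
    refine Finset.prod_le_prod (fun j _ => norm_nonneg _) fun j _ => ?_
    rw [norm_div, norm_div]
    refine div_le_div_of_nonneg_right ?_ (norm_nonneg _)
    rw [norm_pow, norm_pow]
    refine pow_le_pow_left₀ (norm_nonneg _) ?_ _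
    refine (hzb x hx j).trans ?_
    rw [Complex.norm_real, Real.norm_eq_abs]
    exact le_abs_self _)
    (fun x => T.eval (-(τ * Nf f x : ℂ)) * exp (-(τ * Nf f x : ℂ))) (by
    intro x
    have h2 := hasSum_total b T hT (z x)
    have h3 : ∑ j, z x j = -(τ * Nf f x : ℂ) := Nf_eq f x τ
    rw [h3] at h2
    exact h2) hφ
  refine h1.congr_fun fun n => ?_
  rw [← integral_const_mul]
  refine integral_congr_ae (Filter.Eventually.of_forall fun x => ?_)
  simp only [gh, hG, hz, map_mul, eval_C, map_prod, map_pow]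
  rw [← mul_assoc]
  congr 1
  have h4 : ∀ j, (-(τ : ℂ) * (starRingEnd ℂ) (eval x (f j)) * eval x (f j)) ^ n j /
      ((n j).factorial : ℂ) = (-(τ : ℂ)) ^ n j / ((n j).factorial : ℂ) * (eval x (f j)) ^ n j *
        (starRingEnd ℂ) (eval x (f j)) ^ n j := by
    intro j
    rw [mul_pow, mul_pow]
    ring
  rw [Finset.prod_congr rfl fun j _ => h4 j, Finset.prod_mul_distrib, Finset.prod_mul_distrib]
  ring

theorem sum_rhs {K : Set (σ → ℂ)} (hK : IsCompact K) (f : ι → MvPolynomial σ ℂ)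
    (c : ι → ℤ) (β : ι → ℕ) (T : ι → Polynomial ℂ)
    (hT : ∀ j, ∀ u f : ℂ, HasSum (fun n : ℕ => u ^ n / (n.factorial : ℂ) * ((n : ℂ) ^ β j *
      ((if c j < 0 then n.choose (-c j).toNat else 1 : ℕ) : ℂ) * f ^ ((n : ℤ) + c j).toNat))
      (u ^ (-c j).toNat * f ^ (c j).toNat * (T j).eval (u * f) * exp (u * f)))
    (τ : ℝ) {φ : (σ → ℂ) → ℂ} (hφ : Test K φ) :
    HasSum (fun n : ι → ℕ => (∏ j, (-(τ : ℂ)) ^ n j / ((n j).factorial : ℂ)) *
      ((∏ j, (n j : ℂ) ^ β j) * ∫ x, gh (C ((∏ j, (if c j < 0 then (n j).choose (-c j).toNat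
        else 1) : ℕ) : ℂ) * ∏ j, f j ^ ((n j : ℤ) + c j).toNat) (∏ j, f j ^ n j) x * φ x))
      (∫ x, (∏ j, ((-(τ : ℂ) * (starRingEnd ℂ) (eval x (f j))) ^ (-c j).toNat *
        (eval x (f j)) ^ (c j).toNat * (T j).eval (-(τ : ℂ) * (starRingEnd ℂ) (eval x (f j)) *
          eval x (f j)) * exp (-(τ : ℂ) * (starRingEnd ℂ) (eval x (f j)) * eval x (f j)))) * φ x) := by
  obtain ⟨M, hM, hfM⟩ := exists_bd hK f
  set G : (ι → ℕ) → (σ → ℂ) → ℂ := fun n x => ∏ j, rterm f c β τ x j (n j) with hG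
  have hGc : ∀ n, Continuous (G n) := by
    intro n
    refine continuous_finsetProd _ fun j _ => ?_
    have h1 := continuous_ev (f j)
    have h2 := Complex.continuous_conj.comp (continuous_ev (f j))
    exact (((continuous_const.mul h2).pow _).div_const _).mul (continuous_const.mul (h1.pow _))
  set A : ι → ℕ → ℂ := fun j n => (((|τ| * M : ℝ) : ℂ)) ^ n / (n.factorial : ℂ) * ((n : ℂ) ^ β j *
      ((if c j < 0 then n.choose (-c j).toNat else 1 : ℕ) : ℂ) *
        ((M : ℂ)) ^ ((n : ℤ) + c j).toNat) with hA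
  have hs := (hasSum_pi A _ (fun j => hT j ((|τ| * M : ℝ) : ℂ) (M : ℂ))).summable.norm
  have h1 := hasSum_int hK G hGc _ hs (by
    intro n x hx
    rw [hG, hA]
    simp only
    rw [norm_prod, norm_prod]
    refine Finset.prod_le_prod (fun j _ => norm_nonneg _) fun j _ => ?_
    rw [rterm]
    simp only [norm_mul, norm_div, norm_pow, norm_neg, Complex.norm_real, RCLike.norm_conj,
      Real.norm_eq_abs, abs_mul, abs_abs, abs_of_nonneg hM]
    have h3 := hfM x hx j
    gcongr)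
    (fun x => ∏ j, ((-(τ : ℂ) * (starRingEnd ℂ) (eval x (f j))) ^ (-c j).toNat *
        (eval x (f j)) ^ (c j).toNat * (T j).eval (-(τ : ℂ) * (starRingEnd ℂ) (eval x (f j)) *
          eval x (f j)) * exp (-(τ : ℂ) * (starRingEnd ℂ) (eval x (f j)) * eval x (f j)))) (by
    intro x
    exact hasSum_pi (fun j => rterm f c β τ x j) _ (fun j => hT j _ _)) hφ
  refine h1.congr_fun fun n => ?_
  rw [← mul_assoc, ← integral_const_mul]
  refine integral_congr_ae (Filter.Eventually.of_forall fun x => ?_)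
  simp only [gh, hG, rterm, map_mul, eval_C, map_prod, map_pow]
  rw [← mul_assoc]
  congr 1
  push_cast
  rw [← Finset.prod_mul_distrib, ← Finset.prod_mul_distrib, ← Finset.prod_mul_distrib,
    ← Finset.prod_mul_distrib]
  refine Finset.prod_congr rfl fun j _ => ?_
  rw [mul_pow]
  ring

end Pool.Agent.Y230.AR
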