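import Pool.Agent.Y230.AR.Ident

set_option autoImplicit false
set_option linter.unusedSectionVars false
set_option linter.unusedVariables false

/-! # The key estimate -/

namespace Pool.Agent.Y230.AR

open MvPolynomial MeasureTheory Pool.Agent.W574.SM Complex

variable {σ ι : Type} [Fintype σ] [DecidableEq σ] [Fintype ι]

/-- The right hand side of the integrated functional equation. -/
noncomputable def Rf (f : ι → MvPolynomial σ ℂ) (c : ι → ℤ) (T : ι → Polynomial ℂ) (τ : ℝ)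
    (x : σ → ℂ) : ℂ :=
  ∏ j, ((-(τ : ℂ) * (starRingEnd ℂ) (eval x (f j))) ^ (-c j).toNat *
        (eval x (f j)) ^ (c j).toNat * (T j).eval (-(τ : ℂ) * (starRingEnd ℂ) (eval x (f j)) *
          eval x (f j)) * exp (-(τ : ℂ) * (starRingEnd ℂ) (eval x (f j)) * eval x (f j)))

/-- The integrated functional equation. -/
theorem key_ident {K : Set (σ → ℂ)} (hK : IsCompact K) (f : ι → MvPolynomial σ ℂ)
    (b : Polynomial ℂ) (hb : IsFunctionalEq f b) (T : Polynomial ℂ) (hT : SerG b T)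
    {φ : (σ → ℂ) → ℂ} (hφ : Test K φ) :
    ∃ (S : Finset ((ι → ℤ) × (ι →₀ ℕ))) (Tc : (ι → ℤ) × (ι →₀ ℕ) → ι → Polynomial ℂ)
      (ψ : (ι → ℤ) × (ι →₀ ℕ) → (σ → ℂ) → ℂ),
      (∀ p ∈ S, ∑ j, p.1 j = 1 ∧ Test K (ψ p)) ∧
      ∀ τ : ℝ, ∫ x, T.eval (-(τ * Nf f x : ℂ)) * exp (-(τ * Nf f x : ℂ)) * φ x =
        ∑ p ∈ S, ∫ x, Rf f p.1 (Tc p) τ x * ψ p x := by
  classical
  obtain ⟨S0, P, hS, hfe⟩ := hb
  have hadj : ∀ (c : ι → ℤ) (β : ι →₀ ℕ), ∃ ψ : (σ → ℂ) → ℂ, Test K ψ ∧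
      ∀ g h : MvPolynomial σ ℂ, ∫ x, gh (((P c β : weyl σ) : Module.End ℂ (MvPolynomial σ ℂ)) g) h x
        * φ x = ∫ x, gh g h x * ψ x := fun c β => adj hK _ (P c β).2 φ hφ
  choose ψ hψ hψe using hadj
  have hsh := exists_ser_shift
  choose Ts hTs using hsh
  set S : Finset ((ι → ℤ) × (ι →₀ ℕ)) :=
    (S0.sigma fun c => (P c).support).image fun p => (p.1, p.2) with hSdef
  have hmem : ∀ p : (ι → ℤ) × (ι →₀ ℕ), p ∈ S ↔ p.1 ∈ S0 ∧ p.2 ∈ (P p.1).support := by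
    intro p
    rw [hSdef, Finset.mem_image]
    constructor
    · rintro ⟨q, hq, rfl⟩
      exact Finset.mem_sigma.1 hq
    · intro h
      exact ⟨⟨p.1, p.2⟩, Finset.mem_sigma.2 h, rfl⟩
  refine ⟨S, fun p j => Ts (p.2 j) (p.1 j), fun p => ψ p.1 p.2, fun p hp => ?_, fun τ => ?_⟩
  · exact ⟨hS _ ((hmem p).1 hp).1, hψ _ _⟩
  have h1 := sum_lhs hK f b T hT τ hφ
  have h2 : HasSum (fun n : ι → ℕ => ∑ p ∈ S, (∏ j, (-(τ : ℂ)) ^ n j / ((n j).factorial : ℂ)) *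
      ((∏ j, (n j : ℂ) ^ p.2 j) * ∫ x, gh (C ((∏ j, (if p.1 j < 0 then (n j).choose (-p.1 j).toNat
        else 1) : ℕ) : ℂ) * ∏ j, f j ^ ((n j : ℤ) + p.1 j).toNat) (∏ j, f j ^ n j) x * ψ p.1 p.2 x))
      (∑ p ∈ S, ∫ x, Rf f p.1 (fun j => Ts (p.2 j) (p.1 j)) τ x * ψ p.1 p.2 x) :=
    hasSum_sum fun p _ => sum_rhs hK f p.1 p.2 (fun j => Ts (p.2 j) (p.1 j))
      (fun j => hTs (p.2 j) (p.1 j)) τ (hψ p.1 p.2)
  refine h1.unique ?_
  refine h2.congr_fun fun n => ?_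
  rw [← Finset.mul_sum]
  congr 1
  have h3 : ∑ p ∈ S, ((∏ j, (n j : ℂ) ^ p.2 j) * ∫ x, gh (C ((∏ j, (if p.1 j < 0 then
        (n j).choose (-p.1 j).toNat else 1) : ℕ) : ℂ) * ∏ j, f j ^ ((n j : ℤ) + p.1 j).toNat)
        (∏ j, f j ^ n j) x * ψ p.1 p.2 x) =
      ∑ c ∈ S0, ∑ β ∈ (P c).support, ((∏ j, (n j : ℂ) ^ β j) *
        ∫ x, gh (C ((∏ j, (if c j < 0 then (n j).choose (-c j).toNat else 1) : ℕ) : ℂ) *
          ∏ j, f j ^ ((n j : ℤ) + c j).toNat) (∏ j, f j ^ n j) x * ψ c β x) := by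
    rw [hSdef, Finset.sum_image, Finset.sum_sigma]
    rintro ⟨a, b⟩ _ ⟨c, d⟩ _ h
    simp only [Prod.mk.injEq] at h
    obtain ⟨rfl, rfl⟩ := h
    rfl
  rw [h3, hfe n]
  have hint : ∀ (g h : MvPolynomial σ ℂ), Integrable (fun x => gh g h x * φ x) := fun g h =>
    integrable_mul hK (continuous_gh g h) hφ.1.continuous hφ.2
  have hsum : ∀ {κ : Type} (s : Finset κ) (G : κ → MvPolynomial σ ℂ) (h : MvPolynomial σ ℂ),
      ∫ x, gh (∑ k ∈ s, G k) h x * φ x = ∑ k ∈ s, ∫ x, gh (G k) h x * φ x := by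
    intro κ s G h
    rw [← integral_finset_sum _ fun k _ => hint (G k) h]
    refine integral_congr_ae (Filter.Eventually.of_forall fun x => ?_)
    simp only [gh, map_sum, Finset.sum_mul]
  have hsmul : ∀ (a : ℂ) (g h : MvPolynomial σ ℂ),
      ∫ x, gh (a • g) h x * φ x = a * ∫ x, gh g h x * φ x := by
    intro a g h
    rw [← integral_const_mul]
    refine integral_congr_ae (Filter.Eventually.of_forall fun x => ?_)
    simp only [gh, smul_eval]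
    ring
  rw [hsum]
  refine Finset.sum_congr rfl fun c _ => ?_
  rw [applyAt, Finsupp.sum, hsum]
  refine Finset.sum_congr rfl fun β _ => ?_
  rw [hsmul, hψe]

end Pool.Agent.Y230.AR
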