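import Pool.Agent.Y230.AR.Bound

set_option autoImplicit false
set_option linter.unusedSectionVars false
set_option linter.unusedVariables false

/-! # The Mellin transform of the key identity -/

namespace Pool.Agent.Y230.AR

open MvPolynomial MeasureTheory Pool.Agent.W574.SM Complex

variable {σ ι : Type} [Fintype σ] [DecidableEq σ] [Fintype ι]

theorem gamma_int (a N : ℝ) (ha : 0 < a) (hN : 0 < N) :
    IntegrableOn (fun τ : ℝ => τ ^ (a - 1) * Real.exp (-(τ * N) / 2)) (Set.Ioi 0) ∧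
    ∫ τ : ℝ in Set.Ioi 0, τ ^ (a - 1) * Real.exp (-(τ * N) / 2) =
      2 ^ a * Real.Gamma a * N ^ (-a) := by
  have hN2 : 0 < N / 2 := by positivity
  have h1 : ∀ τ : ℝ, -(τ * N) / 2 = -(N / 2 * τ) := by intro τ; ring
  simp only [h1]
  constructor
  · have h2 := Real.GammaIntegral_convergent (s := a) ha
    have h3 := (integrableOn_Ioi_comp_mul_left_iff (fun x : ℝ => Real.exp (-x) * x ^ (a - 1)) 0
      hN2).2 (by rw [mul_zero]; exact h2)
    refine ((h3.const_mul ((1 / (N / 2)) ^ (a - 1)))).congr ?_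
    filter_upwards [ae_restrict_mem measurableSet_Ioi] with τ hτ
    rw [Real.mul_rpow hN2.le (le_of_lt hτ), one_div, Real.inv_rpow hN2.le]
    have : ((N / 2) ^ (a - 1)) ≠ 0 := (Real.rpow_pos_of_pos hN2 _).ne'
    field_simp
  · rw [Real.integral_rpow_mul_exp_neg_mul_Ioi ha hN2, one_div, Real.inv_rpow hN2.le,
      Real.div_rpow hN.le (by norm_num), Real.rpow_neg hN.le]
    have h4 : (2 : ℝ) ^ a ≠ 0 := (Real.rpow_pos_of_pos (by norm_num) _).ne'
    have h5 : N ^ a ≠ 0 := (Real.rpow_pos_of_pos hN _).ne'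
    field_simp

/-- Tonelli for the dominating function. -/
theorem dom_int {K : Set (σ → ℂ)} (hK : IsCompact K) (f : ι → MvPolynomial σ ℂ) (a : ℝ)
    (ha : 0 < a) (hpos : ∀ᵐ x ∂(volume.restrict K), 0 < Nf f x) (w : (σ → ℂ) → ℝ)
    (hwm : Measurable w) (hw0 : ∀ x, 0 ≤ w x)
    (hI : Integrable (fun x => w x * Nf f x ^ (-a)) (volume.restrict K)) :
    Integrable (fun p : (σ → ℂ) × ℝ => w p.1 * (p.2 ^ (a - 1) *
      Real.exp (-(p.2 * Nf f p.1) / 2)))
      ((volume.restrict K).prod (volume.restrict (Set.Ioi 0))) := by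
  have hm : Measurable (fun p : (σ → ℂ) × ℝ => w p.1 * (p.2 ^ (a - 1) *
      Real.exp (-(p.2 * Nf f p.1) / 2))) := by
    have h1 := (continuous_Nf f).measurable
    fun_prop
  rw [integrable_prod_iff hm.aestronglyMeasurable]
  constructor
  · filter_upwards [hpos] with x hx
    exact (gamma_int a _ ha hx).1.const_mul _
  · refine (hI.const_mul (2 ^ a * Real.Gamma a)).congr ?_
    filter_upwards [hpos] with x hx
    have h2 : ∀ τ ∈ Set.Ioi (0 : ℝ), ‖w x * (τ ^ (a - 1) * Real.exp (-(τ * Nf f x) / 2))‖ =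
        w x * (τ ^ (a - 1) * Real.exp (-(τ * Nf f x) / 2)) := by
      intro τ hτ
      rw [Real.norm_eq_abs, abs_of_nonneg]
      have h3 : 0 ≤ τ ^ (a - 1) := Real.rpow_nonneg (le_of_lt hτ) _
      exact mul_nonneg (hw0 x) (mul_nonneg h3 (Real.exp_pos _).le)
    rw [setIntegral_congr_fun measurableSet_Ioi h2, integral_const_mul, (gamma_int a _ ha hx).2]
    ring

/-- **The key estimate.** -/
theorem key_bound {K : Set (σ → ℂ)} (hK : IsCompact K) (f : ι → MvPolynomial σ ℂ)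
    (b : Polynomial ℂ) (hb : IsFunctionalEq f b) (φ : (σ → ℂ) → ℝ)
    (hφ : Test K (fun x => (φ x : ℂ))) (hφ0 : ∀ x, 0 ≤ φ x) :
    ∃ Cst : ℝ, 0 ≤ Cst ∧ ∀ a : ℝ, 0 < a → (∀ᵐ x ∂(volume.restrict K), 0 < Nf f x) →
      IntegrableOn (fun x => Nf f x ^ (-a)) K →
      ‖b.eval (-(a : ℂ))‖ * ∫ x in K, Nf f x ^ (-a) * φ x ≤
        Cst * 2 ^ a * ∫ x in K, Nf f x ^ (1 / 2 - a) := by
  classical
  obtain ⟨T, hT⟩ := exists_serG b
  obtain ⟨S, Tc, ψ, hS, hident⟩ := key_ident hK f b hb T hT hφ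
  have hRb : ∀ p : (ι → ℤ) × (ι →₀ ℕ), ∃ L : ℝ, 0 ≤ L ∧ (p ∈ S → ∀ τ : ℝ, 0 ≤ τ → ∀ x,
      ‖Rf f p.1 (Tc p) τ x‖ ≤ L * (Real.sqrt (Nf f x) * Real.exp (-(τ * Nf f x) / 2))) := by
    intro p
    by_cases hp : p ∈ S
    · obtain ⟨L, hL, h1⟩ := Rf_bound f p.1 (hS p hp).1 (Tc p)
      exact ⟨L, hL, fun _ => h1⟩
    · exact ⟨0, le_refl _, fun h => absurd h hp⟩
  choose L hL0 hL using hRb
  have hψb : ∀ p : (ι → ℤ) × (ι →₀ ℕ), ∃ B : ℝ, 0 ≤ B ∧ (p ∈ S → ∀ x, ‖ψ p x‖ ≤ B) := by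
    intro p
    by_cases hp : p ∈ S
    · have h1 := (hS p hp).2
      have h2 : HasCompactSupport (ψ p) := hK.of_isClosed_subset (isClosed_tsupport _) h1.2
      obtain ⟨B, hB⟩ := h2.exists_bound_of_continuous h1.1.continuous
      exact ⟨max B 0, le_max_right _ _, fun _ x => (hB x).trans (le_max_left _ _)⟩
    · exact ⟨0, le_refl _, fun h => absurd h hp⟩
  choose B hB0 hB using hψb
  set G : ℝ := ∑ p ∈ S, L p * B p with hG
  have hG0 : 0 ≤ G := Finset.sum_nonneg fun p _ => mul_nonneg (hL0 p) (hB0 p)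
  refine ⟨G, hG0, fun a ha hpos hI => ?_⟩
  set μ := (volume : Measure (σ → ℂ)).restrict K with hμ
  set ν := (volume : Measure ℝ).restrict (Set.Ioi 0) with hν
  have hNc := continuous_Nf f
  have hNm := hNc.measurable
  have hφc : Continuous φ := by
    have h0 : φ = fun x => ((φ x : ℂ)).re := by
      funext x
      rw [Complex.ofReal_re]
    rw [h0]
    exact Complex.continuous_re.comp hφ.1.continuous
  -- bounds
  obtain ⟨KT, hKT0, hKT⟩ := poly_le_exp' T (1 / 2) (by norm_num)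
  have hTb : ∀ τ : ℝ, 0 ≤ τ → ∀ x, ‖T.eval (-(τ * Nf f x : ℂ)) * exp (-(τ * Nf f x : ℂ))‖ ≤
      KT * Real.exp (-(τ * Nf f x) / 2) := by
    intro τ hτ x
    have hN0 := Nf_nonneg f x
    have e1 : -(τ * Nf f x : ℂ) = ((-(τ * Nf f x) : ℝ) : ℂ) := by push_cast; rfl
    rw [norm_mul, e1, Complex.norm_exp, Complex.ofReal_re]
    refine (mul_le_mul_of_nonneg_right (hKT _) (Real.exp_pos _).le).trans ?_
    rw [mul_assoc, ← Real.exp_add, Complex.norm_real, Real.norm_eq_abs, abs_neg,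
      abs_of_nonneg (by positivity)]
    refine mul_le_mul_of_nonneg_left (Real.exp_le_exp.2 ?_) hKT0
    linarith
  -- the double integral
  set F : (σ → ℂ) × ℝ → ℂ := fun p => ((p.2 ^ (a - 1) : ℝ) : ℂ) *
    (T.eval (-(p.2 * Nf f p.1 : ℂ)) * exp (-(p.2 * Nf f p.1 : ℂ)) * φ p.1) with hF
  have hFm : Measurable F := by
    have h1 : Measurable fun p : (σ → ℂ) × ℝ => T.eval (-(p.2 * Nf f p.1 : ℂ)) := by
      refine T.continuous.measurable.comp ?_
      fun_prop
    have h2 := hφc.measurable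
    rw [hF]
    fun_prop
  have hIφ : Integrable (fun x => (KT * φ x) * Nf f x ^ (-a)) μ := by
    have hcs : HasCompactSupport (fun x => (φ x : ℂ)) :=
      hK.of_isClosed_subset (isClosed_tsupport _) hφ.2
    obtain ⟨Bφ, hBφ⟩ := hcs.exists_bound_of_continuous hφ.1.continuous
    refine Integrable.bdd_mul (c := KT * Bφ) hI (by
      exact (measurable_const.mul hφc.measurable).aestronglyMeasurable) ?_
    refine Filter.Eventually.of_forall fun x => ?_
    rw [norm_mul, Real.norm_eq_abs, abs_of_nonneg hKT0]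
    refine mul_le_mul_of_nonneg_left ?_ hKT0
    have := hBφ x
    rwa [Complex.norm_real] at this
  have hFi : Integrable F (μ.prod ν) := by
    refine (dom_int hK f a ha hpos (fun x => KT * φ x) (measurable_const.mul hφc.measurable)
      (fun x => mul_nonneg hKT0 (hφ0 x)) hIφ).mono' hFm.aestronglyMeasurable ?_
    have h1 : ∀ᵐ p ∂(μ.prod ν), p.2 ∈ Set.Ioi (0 : ℝ) := by
      have h2 : μ.prod ν = (μ.prod volume).restrict (Set.univ ×ˢ Set.Ioi (0 : ℝ)) := by
        rw [hν, ← Measure.prod_restrict, Measure.restrict_univ]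
      rw [h2]
      filter_upwards [ae_restrict_mem (MeasurableSet.univ.prod measurableSet_Ioi)] with p hp
      exact hp.2
    filter_upwards [h1] with p hp
    have hp0 : (0 : ℝ) < p.2 := hp
    rw [hF]
    simp only
    rw [norm_mul, norm_mul, Complex.norm_real, Complex.norm_real, Real.norm_eq_abs,
      Real.norm_eq_abs, abs_of_nonneg (Real.rpow_nonneg hp0.le _), abs_of_nonneg (hφ0 p.1)]
    calc _ ≤ p.2 ^ (a - 1) * (KT * Real.exp (-(p.2 * Nf f p.1) / 2) * φ p.1) := by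
          refine mul_le_mul_of_nonneg_left ?_ (Real.rpow_nonneg hp0.le _)
          exact mul_le_mul_of_nonneg_right (hTb p.2 hp0.le p.1) (hφ0 _)
      _ = _ := by ring
  -- evaluation of the double integral
  have hE1 : ∫ x, ∫ τ, F (x, τ) ∂ν ∂μ = b.eval (-(a : ℂ)) *
      ((Real.Gamma a * ∫ x in K, Nf f x ^ (-a) * φ x : ℝ) : ℂ) := by
    have h1 : ∀ᵐ x ∂μ, ∫ τ, F (x, τ) ∂ν = ((Real.Gamma a : ℝ) : ℂ) * b.eval (-(a : ℂ)) *
        ((Nf f x ^ (-a) * φ x : ℝ) : ℂ) := by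
      filter_upwards [hpos] with x hx
      have h2 : ∀ τ, F (x, τ) = (((τ ^ (a - 1) : ℝ) : ℂ) *
          (T.eval (-(τ * Nf f x : ℂ)) * exp (-(τ * Nf f x : ℂ)))) * φ x := by
        intro τ
        rw [hF]
        simp only
        ring
      simp only [h2]
      rw [integral_mul_const, hT.2 a _ ha hx, one_div, Real.inv_rpow hx.le, Real.rpow_neg hx.le]
      push_cast
      ring
    rw [integral_congr_ae h1, integral_const_mul, integral_complex_ofReal]
    push_cast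
    ring
  have hE2 : ∫ x, ∫ τ, F (x, τ) ∂ν ∂μ = ∫ τ, ∫ x, F (x, τ) ∂μ ∂ν :=
    integral_integral_swap hFi
  -- the bound
  set w : (σ → ℂ) → ℝ := fun x => G * Real.sqrt (Nf f x) with hw
  have hwm : Measurable w := by
    rw [hw]; fun_prop
  have hw0 : ∀ x, 0 ≤ w x := fun x => mul_nonneg hG0 (Real.sqrt_nonneg _)
  have hKf : IsFiniteMeasure μ := ⟨by rw [hμ, Measure.restrict_apply_univ]; exact hK.measure_lt_top⟩
  have hIw : Integrable (fun x => w x * Nf f x ^ (-a)) μ := by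
    obtain ⟨M, hM⟩ := hK.exists_bound_of_continuousOn (f := w)
      ((continuous_const.mul hNc.sqrt).continuousOn)
    refine Integrable.bdd_mul (c := M) hI hwm.aestronglyMeasurable ?_
    filter_upwards [ae_restrict_mem hK.measurableSet] with x hx
    exact hM x hx
  have hH := dom_int hK f a ha hpos w hwm hw0 hIw
  have hE3 : ∫ τ, ∫ x, w x * (τ ^ (a - 1) * Real.exp (-(τ * Nf f x) / 2)) ∂μ ∂ν =
      G * (2 ^ a * Real.Gamma a) * ∫ x in K, Nf f x ^ (1 / 2 - a) := by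
    rw [← integral_integral_swap hH]
    have h1 : ∀ᵐ x ∂μ, ∫ τ, w x * (τ ^ (a - 1) * Real.exp (-(τ * Nf f x) / 2)) ∂ν =
        G * (2 ^ a * Real.Gamma a) * Nf f x ^ (1 / 2 - a) := by
      filter_upwards [hpos] with x hx
      rw [integral_const_mul, (gamma_int a _ ha hx).2, hw]
      simp only
      rw [Real.sqrt_eq_rpow, sub_eq_add_neg, Real.rpow_add hx]
      ring
    rw [integral_congr_ae h1, integral_const_mul]
  have hE4 : ‖∫ τ, ∫ x, F (x, τ) ∂μ ∂ν‖ ≤
      ∫ τ, ∫ x, w x * (τ ^ (a - 1) * Real.exp (-(τ * Nf f x) / 2)) ∂μ ∂ν := by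
    refine norm_integral_le_of_norm_le hH.integral_prod_right ?_
    filter_upwards [ae_restrict_mem measurableSet_Ioi] with τ hτ
    have hτ0 : (0 : ℝ) < τ := hτ
    have hid := hident τ
    have hz : ∀ {θ : (σ → ℂ) → ℂ} (g : (σ → ℂ) → ℂ), Test K θ →
        ∫ x, g x * θ x = ∫ x, g x * θ x ∂μ := by
      intro θ g hθ
      rw [hμ, setIntegral_eq_integral_of_forall_compl_eq_zero]
      intro x hx
      have : θ x = 0 := by
        by_contra h
        exact hx (hθ.2 (subset_tsupport θ h))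
      rw [this, mul_zero]
    rw [hz _ hφ] at hid
    have h1 : ∫ x, F (x, τ) ∂μ = ((τ ^ (a - 1) : ℝ) : ℂ) *
        ∑ p ∈ S, ∫ x, Rf f p.1 (Tc p) τ x * ψ p x ∂μ := by
      have h2 : ∑ p ∈ S, ∫ x, Rf f p.1 (Tc p) τ x * ψ p x ∂μ =
          ∑ p ∈ S, ∫ x, Rf f p.1 (Tc p) τ x * ψ p x :=
        Finset.sum_congr rfl fun p hp => (hz _ (hS p hp).2).symm
      rw [h2, ← hid, ← integral_const_mul]
    have hNi : Integrable (fun x => Real.sqrt (Nf f x) * Real.exp (-(τ * Nf f x) / 2)) μ := by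
      have hcont : Continuous fun x => Real.sqrt (Nf f x) * Real.exp (-(τ * Nf f x) / 2) := by
        fun_prop
      exact hcont.continuousOn.integrableOn_compact hK
    rw [h1, norm_mul, Complex.norm_real, Real.norm_eq_abs,
      abs_of_nonneg (Real.rpow_nonneg hτ0.le _)]
    have h3 : ‖∑ p ∈ S, ∫ x, Rf f p.1 (Tc p) τ x * ψ p x ∂μ‖ ≤
        ∑ p ∈ S, ∫ x, L p * B p * (Real.sqrt (Nf f x) * Real.exp (-(τ * Nf f x) / 2)) ∂μ := by
      refine (norm_sum_le _ _).trans (Finset.sum_le_sum fun p hp => ?_)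
      refine norm_integral_le_of_norm_le (hNi.const_mul _) ?_
      refine Filter.Eventually.of_forall fun x => ?_
      rw [norm_mul]
      calc _ ≤ (L p * (Real.sqrt (Nf f x) * Real.exp (-(τ * Nf f x) / 2))) * B p :=
            mul_le_mul (hL p hp τ hτ0.le x) (hB p hp x) (norm_nonneg _)
              (mul_nonneg (hL0 p) (mul_nonneg (Real.sqrt_nonneg _) (Real.exp_pos _).le))
        _ = _ := by ring
    refine (mul_le_mul_of_nonneg_left h3 (Real.rpow_nonneg hτ0.le _)).trans (le_of_eq ?_)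
    simp only [integral_const_mul]
    rw [← Finset.sum_mul, ← hG]
    have h4 : ∀ x, w x * (τ ^ (a - 1) * Real.exp (-(τ * Nf f x) / 2)) =
        (τ ^ (a - 1) * G) * (Real.sqrt (Nf f x) * Real.exp (-(τ * Nf f x) / 2)) := by
      intro x
      rw [hw]
      simp only
      ring
    simp only [h4]
    rw [integral_const_mul]
    ring
  rw [← hE2, hE1, hE3, norm_mul, Complex.norm_real, Real.norm_eq_abs, abs_mul,
    abs_of_pos (Real.Gamma_pos_of_pos ha)] at hE4
  have hΓ := Real.Gamma_pos_of_pos ha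
  have h5 : ∫ x in K, Nf f x ^ (-a) * φ x ≤ |∫ x in K, Nf f x ^ (-a) * φ x| := le_abs_self _
  have h6 : Real.Gamma a * (‖b.eval (-(a : ℂ))‖ * ∫ x in K, Nf f x ^ (-a) * φ x) ≤
      Real.Gamma a * (G * 2 ^ a * ∫ x in K, Nf f x ^ (1 / 2 - a)) := by
    calc _ ≤ ‖b.eval (-(a : ℂ))‖ * (Real.Gamma a * |∫ x in K, Nf f x ^ (-a) * φ x|) := by
          calc _ = ‖b.eval (-(a : ℂ))‖ * (Real.Gamma a * ∫ x in K, Nf f x ^ (-a) * φ x) := by ring
            _ ≤ _ := by gcongr
      _ ≤ _ := hE4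
      _ = _ := by ring
  exact le_of_mul_le_mul_left h6 hΓ

end Pool.Agent.Y230.AR
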