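import Pool.Agent.Y230.AR.Mellin

set_option autoImplicit false
set_option linter.unusedSectionVars false
set_option linter.unusedVariables false

/-! # Multiplicities of roots from integrals -/

namespace Pool.Agent.Y230.AR

open MeasureTheory Pool.Agent.W574.SM Complex

theorem dvd_of_bound (b : Polynomial ℂ) (s0 : ℝ) (k : ℕ) (δ Cst : ℝ) (hδ : 0 < δ)
    (h : ∀ s : ℝ, s0 < s → s < s0 + δ → ‖b.eval (s : ℂ)‖ ≤ Cst * (s - s0) ^ k) :
    (Polynomial.X - Polynomial.C (s0 : ℂ)) ^ k ∣ b := by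
  by_cases hb : b = 0
  · rw [hb]; exact dvd_zero _
  obtain ⟨q, hq, hnd⟩ := Polynomial.exists_eq_pow_rootMultiplicity_mul_and_not_dvd b hb (s0 : ℂ)
  set m := b.rootMultiplicity (s0 : ℂ) with hm
  by_cases hkm : k ≤ m
  · exact (pow_dvd_pow _ hkm).trans ⟨q, hq⟩
  exfalso
  push Not at hkm
  rw [Polynomial.dvd_iff_isRoot, Polynomial.IsRoot.def] at hnd
  apply hnd
  have h1 : ∀ s : ℝ, s0 < s → s < s0 + δ → ‖q.eval (s : ℂ)‖ ≤ Cst * (s - s0) ^ (k - m) := by
    intro s hs hs'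
    have h2 := h s hs hs'
    have hp : 0 < s - s0 := sub_pos.2 hs
    rw [hq, Polynomial.eval_mul, Polynomial.eval_pow, Polynomial.eval_sub, Polynomial.eval_X,
      Polynomial.eval_C, norm_mul, norm_pow, ← Complex.ofReal_sub, Complex.norm_real,
      Real.norm_eq_abs, abs_of_pos hp] at h2
    have h3 : (s - s0) ^ k = (s - s0) ^ m * (s - s0) ^ (k - m) := by
      rw [← pow_add]; congr 1; omega
    rw [h3] at h2
    have h4 : (s - s0) ^ m * ‖q.eval (s : ℂ)‖ ≤ (s - s0) ^ m * (Cst * (s - s0) ^ (k - m)) := by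
      calc _ ≤ _ := h2
        _ = _ := by ring
    exact le_of_mul_le_mul_left h4 (pow_pos hp m)
  have hlim : Filter.Tendsto (fun s : ℝ => ‖q.eval (s : ℂ)‖) (nhdsWithin s0 (Set.Ioi s0))
      (nhds ‖q.eval (s0 : ℂ)‖) := by
    have hc : Continuous fun s : ℝ => ‖q.eval (s : ℂ)‖ :=
      (q.continuous.comp Complex.continuous_ofReal).norm
    exact (hc.tendsto s0).mono_left nhdsWithin_le_nhds
  have hlim0 : Filter.Tendsto (fun s : ℝ => Cst * (s - s0) ^ (k - m)) (nhdsWithin s0 (Set.Ioi s0))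
      (nhds 0) := by
    have hc : Continuous fun s : ℝ => Cst * (s - s0) ^ (k - m) := by fun_prop
    have h2 := (hc.tendsto s0).mono_left (nhdsWithin_le_nhds (s := Set.Ioi s0))
    have h3 : k - m ≠ 0 := by omega
    simpa [h3] using h2
  have h5 : ‖q.eval (s0 : ℂ)‖ ≤ 0 := by
    refine le_of_tendsto_of_tendsto hlim hlim0 ?_
    filter_upwards [Ioo_mem_nhdsGT (show s0 < s0 + δ by linarith)] with s hs
    exact h1 s hs.1 hs.2
  exact norm_le_zero_iff.1 h5

variable {σ ι : Type} [Fintype σ] [DecidableEq σ] [Fintype ι]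

/-- **Multiplicities of roots from integrals.** -/
theorem arch_mult {K : Set (σ → ℂ)} (hK : IsCompact K) (f : ι → MvPolynomial σ ℂ)
    (b : Polynomial ℂ) (hb : IsFunctionalEq f b) (φ : (σ → ℂ) → ℝ)
    (hφ : Test K (fun x => (φ x : ℂ))) (hφ0 : ∀ x, 0 ≤ φ x) (s0 : ℝ) (hs0 : s0 < 0) (k : ℕ)
    (hpos : ∀ᵐ x ∂(volume.restrict K), 0 < Nf f x)
    (hI : ∀ s : ℝ, s0 < s → s < 0 → IntegrableOn (fun x => Nf f x ^ s) K)
    (c δ : ℝ) (hc : 0 < c) (hδ : 0 < δ)
    (hlow : ∀ s : ℝ, s0 < s → s < s0 + δ → s < 0 → c ≤ (s - s0) ^ k * ∫ x in K, Nf f x ^ s * φ x) :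
    (Polynomial.X - Polynomial.C (s0 : ℂ)) ^ k ∣ b := by
  obtain ⟨Cst, hC0, hC⟩ := key_bound hK f b hb φ hφ hφ0
  set a0 : ℝ := -s0 with ha0
  have ha0p : 0 < a0 := by linarith
  set a1 : ℝ := max (a0 - 1 / 2) (a0 / 2) with ha1
  have ha1p : 0 < a1 := lt_of_lt_of_le (by linarith) (le_max_right _ _)
  have ha1l : a1 < a0 := max_lt (by linarith) (by linarith)
  have hNc := continuous_Nf f
  have hI1 : IntegrableOn (fun x => Nf f x ^ (-a1)) K := hI (-a1) (by linarith) (by linarith)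
  have hI2 : IntegrableOn (fun x => Real.sqrt (Nf f x)) K :=
    hNc.sqrt.continuousOn.integrableOn_compact hK
  set D : ℝ := (∫ x in K, Nf f x ^ (-a1)) + ∫ x in K, Real.sqrt (Nf f x) with hD
  have hD0 : 0 ≤ D := by
    refine add_nonneg ?_ ?_
    · exact integral_nonneg fun x => Real.rpow_nonneg (Nf_nonneg f x) _
    · exact integral_nonneg fun x => Real.sqrt_nonneg _
  have hup : ∀ a : ℝ, 0 < a → a < a0 → ∫ x in K, Nf f x ^ (1 / 2 - a) ≤ D := by
    intro a ha haa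
    rw [hD, ← integral_add hI1 hI2]
    refine integral_mono_of_nonneg ?_ (hI1.add hI2) ?_
    · exact Filter.Eventually.of_forall fun x => Real.rpow_nonneg (Nf_nonneg f x) _
    · filter_upwards [hpos] with x hx
      have h1 : a0 - 1 / 2 ≤ a1 := le_max_left _ _
      rcases le_total (Nf f x) 1 with h | h
      · have h2 : Nf f x ^ (1 / 2 - a) ≤ Nf f x ^ (-a1) :=
          Real.rpow_le_rpow_of_exponent_ge hx h (by linarith)
        have h3 := Real.sqrt_nonneg (Nf f x)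
        linarith
      · have h2 : Nf f x ^ (1 / 2 - a) ≤ Nf f x ^ (1 / 2 : ℝ) :=
          Real.rpow_le_rpow_of_exponent_le h (by linarith)
        rw [← Real.sqrt_eq_rpow] at h2
        have h3 : 0 ≤ Nf f x ^ (-a1) := Real.rpow_nonneg hx.le _
        linarith
  refine dvd_of_bound b s0 k (min δ a0) (Cst * 2 ^ a0 * D / c) (lt_min hδ ha0p) ?_
  intro s hs hs'
  have hs1 : s < s0 + δ := lt_of_lt_of_le hs' (by linarith [min_le_left δ a0])
  have hs2 : s < 0 := lt_of_lt_of_le hs' (by linarith [min_le_right δ a0])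
  have h1 := hlow s hs hs1 hs2
  have h2 := hC (-s) (by linarith) hpos (by rw [neg_neg]; exact hI s hs hs2)
  rw [neg_neg] at h2
  have e1 : b.eval (-((-s : ℝ) : ℂ)) = b.eval (s : ℂ) := by
    congr 1
    push_cast
    ring
  rw [e1] at h2
  have h3 : Cst * 2 ^ (-s) * ∫ x in K, Nf f x ^ (1 / 2 - -s) ≤ Cst * 2 ^ a0 * D := by
    have h4 := hup (-s) (by linarith) (by linarith)
    have h5 : (2 : ℝ) ^ (-s) ≤ 2 ^ a0 := Real.rpow_le_rpow_of_exponent_le (by norm_num) (by linarith)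
    have h6 : 0 ≤ ∫ x in K, Nf f x ^ (1 / 2 - -s) :=
      integral_nonneg fun x => Real.rpow_nonneg (Nf_nonneg f x) _
    have h7 : (0 : ℝ) ≤ 2 ^ (-s) := Real.rpow_nonneg (by norm_num) _
    gcongr
  have hp : 0 < s - s0 := sub_pos.2 hs
  have h8 : c * ‖b.eval (s : ℂ)‖ ≤ Cst * 2 ^ a0 * D * (s - s0) ^ k := by
    calc c * ‖b.eval (s : ℂ)‖ ≤ ((s - s0) ^ k * ∫ x in K, Nf f x ^ s * φ x) * ‖b.eval (s : ℂ)‖ :=
          mul_le_mul_of_nonneg_right h1 (norm_nonneg _)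
      _ = (s - s0) ^ k * (‖b.eval (s : ℂ)‖ * ∫ x in K, Nf f x ^ s * φ x) := by ring
      _ ≤ (s - s0) ^ k * (Cst * 2 ^ a0 * D) :=
          mul_le_mul_of_nonneg_left (h2.trans h3) (pow_pos hp k).le
      _ = _ := by ring
  rw [div_mul_eq_mul_div, le_div_iff₀ hc, mul_comm]
  exact h8

end Pool.Agent.Y230.AR
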