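import Pool.Agent.Y230.AR.Series

set_option autoImplicit false
set_option linter.unusedSectionVars false
set_option linter.unusedVariables false

/-! # Exponential sums in several variables -/

namespace Pool.Agent.Y230.AR

open Complex Polynomial MeasureTheory

theorem poly_le_exp (b : Polynomial ℂ) : ∃ K : ℝ, 0 ≤ K ∧ ∀ m : ℕ,
    ‖b.eval (m : ℂ)‖ ≤ K * Real.exp 1 ^ m := by
  induction b using Polynomial.induction_on' with
  | add p q hp hq =>
    obtain ⟨K, hK, h1⟩ := hp
    obtain ⟨L, hL, h2⟩ := hq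
    refine ⟨K + L, by positivity, fun m => ?_⟩
    rw [eval_add]
    refine (norm_add_le _ _).trans ?_
    rw [add_mul]
    exact add_le_add (h1 m) (h2 m)
  | monomial n c =>
    refine ⟨‖c‖ * n.factorial, by positivity, fun m => ?_⟩
    rw [eval_monomial, norm_mul, norm_pow, Complex.norm_natCast, mul_assoc]
    refine mul_le_mul_of_nonneg_left ?_ (norm_nonneg c)
    have h1 := Real.pow_div_factorial_le_exp (m : ℝ) (Nat.cast_nonneg m) n
    rw [div_le_iff₀ (by positivity)] at h1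
    rw [mul_comm, ← Real.exp_nat_mul, mul_one]
    exact h1

theorem hasSum_total {ι : Type} [Fintype ι] (b T : Polynomial ℂ) (hT : SerG b T) (z : ι → ℂ) :
    HasSum (fun n : ι → ℕ => (∏ j, z j ^ n j / ((n j).factorial : ℂ)) *
      b.eval ((∑ j, n j : ℕ) : ℂ)) (T.eval (∑ j, z j) * exp (∑ j, z j)) := by
  classical
  obtain ⟨K, hK, hb⟩ := poly_le_exp b
  set f : (ι → ℕ) → ℂ := fun n => (∏ j, z j ^ n j / ((n j).factorial : ℂ)) *
      b.eval ((∑ j, n j : ℕ) : ℂ) with hf
  have hs : Summable f := by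
    have h1 : Summable fun n : ι → ℕ =>
        ∏ j, (((‖z j‖ * Real.exp 1 : ℝ) : ℂ)) ^ n j / ((n j).factorial : ℂ) :=
      (hasSum_pi (fun j n => (((‖z j‖ * Real.exp 1 : ℝ) : ℂ)) ^ n / (n.factorial : ℂ)) _
        (fun j => hasSum_exp' _)).summable
    have h2 : Summable fun n : ι → ℕ =>
        ‖∏ j, (((‖z j‖ * Real.exp 1 : ℝ) : ℂ)) ^ n j / ((n j).factorial : ℂ)‖ := h1.norm
    refine Summable.of_norm_bounded (h2.mul_left K) fun n => ?_
    rw [hf]
    simp only
    rw [norm_mul, norm_prod, norm_prod]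
    have h3 : ∏ j, ‖(((‖z j‖ * Real.exp 1 : ℝ) : ℂ)) ^ n j / ((n j).factorial : ℂ)‖ =
        (∏ j, ‖z j ^ n j / ((n j).factorial : ℂ)‖) * Real.exp 1 ^ (∑ j, n j) := by
      rw [← Finset.prod_pow_eq_pow_sum, ← Finset.prod_mul_distrib]
      refine Finset.prod_congr rfl fun j _ => ?_
      rw [norm_div, norm_div, norm_pow, norm_pow, Complex.norm_real, Real.norm_eq_abs, abs_mul,
        abs_of_nonneg (norm_nonneg _), abs_of_pos (Real.exp_pos 1), mul_pow]
      ring
    rw [h3]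
    calc _ ≤ (∏ j, ‖z j ^ n j / ((n j).factorial : ℂ)‖) * (K * Real.exp 1 ^ (∑ j, n j)) :=
          mul_le_mul_of_nonneg_left (hb _) (Finset.prod_nonneg fun j _ => norm_nonneg _)
      _ = _ := by ring
  have h1 := hs.hasSum.tsum_fiberwise (fun n => ∑ j, n j)
  have h2 := hT.1 (∑ j, z j)
  have h3 : (fun c : ℕ => ∑' n : ((fun n : ι → ℕ => ∑ j, n j) ⁻¹' {c}), f n) =
      fun c : ℕ => (∑ j, z j) ^ c / (c.factorial : ℂ) * b.eval (c : ℂ) := by
    funext c
    have h4 : ((fun n : ι → ℕ => ∑ j, n j) ⁻¹' {c}) =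
        ↑(Finset.piAntidiag (Finset.univ : Finset ι) c) := by
      ext n
      simp [Finset.mem_piAntidiag]
    rw [h4, Finset.tsum_subtype', Finset.sum_pow_eq_sum_piAntidiag, Finset.sum_div,
      Finset.sum_mul]
    refine Finset.sum_congr rfl fun n hn => ?_
    have h5 : ∑ j, n j = c := (Finset.mem_piAntidiag.1 hn).1
    have h6 := Nat.multinomial_spec (Finset.univ : Finset ι) n
    rw [h5] at h6
    have h7 : (∏ j, ((n j).factorial : ℂ)) * (Nat.multinomial Finset.univ n : ℂ) = (c.factorial : ℂ) := by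
      exact_mod_cast h6
    have h8 : (∏ j, ((n j).factorial : ℂ)) ≠ 0 :=
      Finset.prod_ne_zero_iff.2 fun j _ => Nat.cast_ne_zero.2 (Nat.factorial_ne_zero _)
    have h9 : (c.factorial : ℂ) ≠ 0 := Nat.cast_ne_zero.2 (Nat.factorial_ne_zero _)
    rw [hf]
    simp only
    rw [h5, Finset.prod_div_distrib]
    congr 1
    rw [div_eq_div_iff h8 h9, ← h7]
    ring
  rw [h3] at h1
  have h4 := h1.unique h2
  rw [← h4]
  exact hs.hasSum

end Pool.Agent.Y230.AR
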