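import Mathlib

set_option autoImplicit false
set_option linter.unusedSectionVars false
set_option linter.unusedVariables false

/-! # Exponential sums -/

namespace Pool.Agent.Y230.AR

open Complex Polynomial MeasureTheory

/-- `∑ h(n) z ^ n / n! = T(z) exp z` -/
def Ser (h : ℕ → ℂ) (T : Polynomial ℂ) : Prop :=
  ∀ z : ℂ, HasSum (fun n : ℕ => z ^ n / (n.factorial : ℂ) * h n) (T.eval z * exp z)

theorem Ser.add {h k : ℕ → ℂ} {T U : Polynomial ℂ} (hT : Ser h T) (hU : Ser k U) :
    Ser (fun n => h n + k n) (T + U) := by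
  intro z
  rw [eval_add, add_mul]
  refine ((hT z).add (hU z)).congr_fun ?_
  intro n
  ring

theorem Ser.smul {h : ℕ → ℂ} {T : Polynomial ℂ} (hT : Ser h T) (c : ℂ) :
    Ser (fun n => c * h n) (C c * T) := by
  intro z
  rw [eval_mul, eval_C, mul_assoc]
  refine ((hT z).mul_left c).congr_fun ?_
  intro n
  ring

theorem hasSum_exp' (z : ℂ) : HasSum (fun n : ℕ => z ^ n / (n.factorial : ℂ)) (exp z) := by
  rw [Complex.exp_eq_exp_ℂ]
  exact NormedSpace.expSeries_div_hasSum_exp z

theorem ser_desc (k : ℕ) : Ser (fun n => (n.descFactorial k : ℂ)) (X ^ k) := by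
  intro z
  rw [eval_pow, eval_X]
  have h0 : ∑ i ∈ Finset.range k, z ^ i / (i.factorial : ℂ) * (i.descFactorial k : ℂ) = 0 := by
    refine Finset.sum_eq_zero fun i hi => ?_
    rw [Nat.descFactorial_eq_zero_iff_lt.2 (Finset.mem_range.1 hi)]
    simp
  rw [← hasSum_nat_add_iff' k, h0, sub_zero]
  refine ((hasSum_exp' z).mul_left (z ^ k)).congr_fun ?_
  intro n
  have h2 : ((n + k).factorial : ℂ) = (n.factorial : ℂ) * ((n + k).descFactorial k : ℂ) := by
    have := Nat.factorial_mul_descFactorial (n := n + k) (k := k) (Nat.le_add_left k n)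
    rw [Nat.add_sub_cancel] at this
    exact_mod_cast this.symm
  have h3 : (n.factorial : ℂ) ≠ 0 := Nat.cast_ne_zero.2 (Nat.factorial_ne_zero n)
  have h5 : ((n + k).descFactorial k : ℂ) ≠ 0 := by
    intro h
    rw [h, mul_zero] at h2
    exact Nat.cast_ne_zero.2 (Nat.factorial_ne_zero _) h2
  simp only
  rw [h2]
  field_simp
  ring

/-- The two sides: the exponential sum of `b` and its Mellin transform. -/
def SerG (b T : Polynomial ℂ) : Prop :=
  Ser (fun n => b.eval (n : ℂ)) T ∧ ∀ a N : ℝ, 0 < a → 0 < N →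
    ∫ τ : ℝ in Set.Ioi 0, ((τ ^ (a - 1) : ℝ) : ℂ) * (T.eval (-(τ * N : ℂ)) * exp (-(τ * N : ℂ)))
      = b.eval (-(a : ℂ)) * (Real.Gamma a * (1 / N) ^ a : ℝ)

theorem integrableOn_aux (T : Polynomial ℂ) (a N : ℝ) (ha : 0 < a) (hN : 0 < N) :
    IntegrableOn (fun τ : ℝ => ((τ ^ (a - 1) : ℝ) : ℂ) *
      (T.eval (-(τ * N : ℂ)) * exp (-(τ * N : ℂ)))) (Set.Ioi 0) := by
  induction T using Polynomial.induction_on' with
  | add p q hp hq =>
    refine (hp.add hq).congr (Filter.Eventually.of_forall fun τ => ?_)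
    simp only [Pi.add_apply, eval_add]
    ring
  | monomial n c =>
    have h1 : IntegrableOn (fun τ : ℝ => τ ^ (a + n - 1) * Real.exp (-(N * τ))) (Set.Ioi 0) := by
      have h2 := Real.GammaIntegral_convergent (s := a + n) (by positivity)
      have h3 := (integrableOn_Ioi_comp_mul_left_iff (fun x : ℝ => Real.exp (-x) * x ^ (a + n - 1)) 0
        hN).2 (by rw [mul_zero]; exact h2)
      refine ((h3.const_mul ((1 / N) ^ (a + n - 1)))).congr ?_
      filter_upwards [ae_restrict_mem measurableSet_Ioi] with τ hτ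
      rw [Real.mul_rpow hN.le (le_of_lt hτ), one_div, Real.inv_rpow hN.le]
      have : (N ^ (a + n - 1)) ≠ 0 := (Real.rpow_pos_of_pos hN _).ne'
      field_simp
    have h2 := (h1.ofReal (𝕜 := ℂ)).const_mul (c * (-(N : ℂ)) ^ n)
    refine h2.congr ?_
    filter_upwards [ae_restrict_mem measurableSet_Ioi] with τ hτ
    have h4 : τ ^ (a + n - 1) = τ ^ (a - 1) * τ ^ n := by
      rw [← Real.rpow_natCast, ← Real.rpow_add hτ]
      congr 1
      ring
    have h5 : exp (-(τ * N : ℂ)) = ((Real.exp (-(N * τ)) : ℝ) : ℂ) := by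
      rw [mul_comm]; push_cast; rfl
    rw [h4, eval_monomial, h5, neg_pow (N : ℂ), neg_pow (τ * N : ℂ), mul_pow]
    simp only [Complex.ofReal_mul, Complex.ofReal_pow, RCLike.ofReal_eq_complex_ofReal]
    ring

theorem serG_desc (k : ℕ) : SerG (descPochhammer ℂ k) (X ^ k) := by
  refine ⟨?_, fun a N ha hN => ?_⟩
  · have h := ser_desc k
    intro z
    refine (h z).congr_fun ?_
    intro n
    simp only
    rw [descPochhammer_eval_eq_descFactorial]
  · have h1 : ∀ τ ∈ Set.Ioi (0 : ℝ), ((τ ^ (a - 1) : ℝ) : ℂ) *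
        ((X ^ k : Polynomial ℂ).eval (-(τ * N : ℂ)) * exp (-(τ * N : ℂ)))
        = (((-N) ^ k * (τ ^ (a + k - 1) * Real.exp (-(N * τ))) : ℝ) : ℂ) := by
      intro τ hτ
      have h4 : τ ^ (a + k - 1) = τ ^ (a - 1) * τ ^ k := by
        rw [← Real.rpow_natCast, ← Real.rpow_add hτ]
        congr 1
        ring
      have h5 : exp (-(τ * N : ℂ)) = ((Real.exp (-(N * τ)) : ℝ) : ℂ) := by
        rw [mul_comm]; push_cast; rfl
      rw [h4, eval_pow, eval_X, h5, neg_pow (τ * N : ℂ), mul_pow]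
      simp only [Complex.ofReal_mul, Complex.ofReal_pow, Complex.ofReal_neg]
      rw [neg_pow (N : ℂ)]
      ring
    rw [setIntegral_congr_fun measurableSet_Ioi h1, integral_complex_ofReal, integral_const_mul,
      Real.integral_rpow_mul_exp_neg_mul_Ioi (by positivity) hN]
    have h6 : ∀ k : ℕ, Real.Gamma (a + k) * (-1) ^ k =
        (descPochhammer ℝ k).eval (-a) * Real.Gamma a := by
      intro k
      induction k with
      | zero => simp
      | succ k ih =>
        rw [descPochhammer_succ_right, eval_mul, eval_sub, eval_X, eval_natCast]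
        have h7 : a + ((k + 1 : ℕ) : ℝ) = (a + k) + 1 := by push_cast; ring
        rw [h7, Real.Gamma_add_one (by positivity), pow_succ]
        linear_combination (-(a + k)) * ih
    have h8 : (descPochhammer ℂ k).eval (-(a : ℂ)) = ((descPochhammer ℝ k).eval (-a) : ℝ) := by
      have := descPochhammer_map (algebraMap ℝ ℂ) k
      rw [← this, eval_map, ← Complex.ofReal_neg]
      exact (eval₂_at_apply (algebraMap ℝ ℂ) (-a))
    rw [h8, ← Complex.ofReal_mul]
    congr 1
    rw [Real.rpow_add (by positivity), Real.rpow_natCast, neg_pow]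
    have h10 : N ^ k * (1 / N) ^ k = 1 := by
      rw [← mul_pow, mul_one_div_cancel hN.ne', one_pow]
    linear_combination ((1 / N) ^ a) * h6 k + ((-1) ^ k * (1 / N) ^ a * Real.Gamma (a + k)) * h10

theorem SerG.add {b c T U : Polynomial ℂ} (hT : SerG b T) (hU : SerG c U) :
    SerG (b + c) (T + U) := by
  refine ⟨?_, fun a N ha hN => ?_⟩
  · intro z
    refine ((hT.1.add hU.1) z).congr_fun ?_
    intro n
    simp only [eval_add]
  · have h1 : ∀ τ ∈ Set.Ioi (0 : ℝ), ((τ ^ (a - 1) : ℝ) : ℂ) *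
        ((T + U).eval (-(τ * N : ℂ)) * exp (-(τ * N : ℂ))) =
        ((τ ^ (a - 1) : ℝ) : ℂ) * (T.eval (-(τ * N : ℂ)) * exp (-(τ * N : ℂ))) +
        ((τ ^ (a - 1) : ℝ) : ℂ) * (U.eval (-(τ * N : ℂ)) * exp (-(τ * N : ℂ))) := by
      intro τ _
      rw [eval_add]; ring
    rw [setIntegral_congr_fun measurableSet_Ioi h1, integral_add (integrableOn_aux T a N ha hN)
      (integrableOn_aux U a N ha hN), hT.2 a N ha hN, hU.2 a N ha hN, eval_add]
    ring

theorem SerG.smul {b T : Polynomial ℂ} (hT : SerG b T) (c : ℂ) :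
    SerG (C c * b) (C c * T) := by
  refine ⟨?_, fun a N ha hN => ?_⟩
  · intro z
    refine ((hT.1.smul c) z).congr_fun ?_
    intro n
    simp only [eval_mul, eval_C]
  · have h1 : ∀ τ ∈ Set.Ioi (0 : ℝ), ((τ ^ (a - 1) : ℝ) : ℂ) *
        ((C c * T).eval (-(τ * N : ℂ)) * exp (-(τ * N : ℂ))) =
        c * (((τ ^ (a - 1) : ℝ) : ℂ) * (T.eval (-(τ * N : ℂ)) * exp (-(τ * N : ℂ)))) := by
      intro τ _
      rw [eval_mul, eval_C]; ring
    rw [setIntegral_congr_fun measurableSet_Ioi h1, integral_const_mul, hT.2 a N ha hN, eval_mul,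
      eval_C]
    ring

/-- polynomials which are combinations of falling factorials -/
inductive IsComb : Polynomial ℂ → Prop
  | desc (k : ℕ) : IsComb (descPochhammer ℂ k)
  | add (p q : Polynomial ℂ) : IsComb p → IsComb q → IsComb (p + q)
  | smul (c : ℂ) (p : Polynomial ℂ) : IsComb p → IsComb (C c * p)

theorem IsComb.mul_X {p : Polynomial ℂ} (hp : IsComb p) : IsComb (p * X) := by
  induction hp with
  | desc k =>
    have h : descPochhammer ℂ k * X = descPochhammer ℂ (k + 1) + C (k : ℂ) * descPochhammer ℂ k := by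
      rw [descPochhammer_succ_right, map_natCast]
      ring
    rw [h]
    exact (IsComb.desc _).add _ _ ((IsComb.desc _).smul _ _)
  | add p q _ _ hp hq => rw [add_mul]; exact hp.add _ _ hq
  | smul c p _ hp => rw [mul_assoc]; exact hp.smul _ _

theorem isComb (p : Polynomial ℂ) : IsComb p := by
  induction p using Polynomial.induction_on with
  | C a =>
    have h := (IsComb.desc 0).smul a _
    rwa [descPochhammer_zero, mul_one] at h
  | add p q hp hq => exact hp.add _ _ hq
  | monomial n a h => rw [pow_succ, ← mul_assoc]; exact h.mul_X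

theorem exists_serG (b : Polynomial ℂ) : ∃ T, SerG b T := by
  have h := isComb b
  induction h with
  | desc k => exact ⟨_, serG_desc k⟩
  | add p q _ _ hp hq =>
    obtain ⟨T, hT⟩ := hp
    obtain ⟨U, hU⟩ := hq
    exact ⟨_, hT.add hU⟩
  | smul c p _ hp =>
    obtain ⟨T, hT⟩ := hp
    exact ⟨_, hT.smul c⟩

/-- The one-variable sums on the right hand side of the functional equation. -/
theorem exists_ser_shift (β : ℕ) (c : ℤ) : ∃ T : Polynomial ℂ, ∀ u f : ℂ,
    HasSum (fun n : ℕ => u ^ n / (n.factorial : ℂ) * ((n : ℂ) ^ β *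
      ((if c < 0 then n.choose (-c).toNat else 1 : ℕ) : ℂ) * f ^ ((n : ℤ) + c).toNat))
      (u ^ (-c).toNat * f ^ c.toNat * T.eval (u * f) * exp (u * f)) := by
  by_cases hc : c < 0
  · obtain ⟨d, hd⟩ : ∃ d : ℕ, c = -(d : ℤ) := ⟨(-c).toNat, by omega⟩
    subst hd
    obtain ⟨T, hT⟩ := exists_serG ((X + C (d : ℂ)) ^ β)
    refine ⟨C ((d.factorial : ℂ)⁻¹) * T, fun u f => ?_⟩
    have hd0 : (-(-(d : ℤ))).toNat = d := by omega
    have hd1 : (-(d : ℤ)).toNat = 0 := by omega
    rw [hd0, hd1, pow_zero, mul_one, eval_mul, eval_C]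
    simp only [if_pos hc]
    have h0 : ∑ i ∈ Finset.range d, u ^ i / (i.factorial : ℂ) * ((i : ℂ) ^ β *
        ((i.choose d : ℕ) : ℂ) * f ^ ((i : ℤ) + -(d : ℤ)).toNat) = 0 := by
      refine Finset.sum_eq_zero fun i hi => ?_
      rw [Nat.choose_eq_zero_of_lt (Finset.mem_range.1 hi)]
      simp
    rw [← hasSum_nat_add_iff' d, h0, sub_zero]
    have h1 := (hT.1 (u * f)).mul_left (u ^ d * (d.factorial : ℂ)⁻¹)
    have h2 : u ^ d * ((d.factorial : ℂ)⁻¹ * eval (u * f) T) * exp (u * f) =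
        u ^ d * (d.factorial : ℂ)⁻¹ * (eval (u * f) T * exp (u * f)) := by ring
    rw [h2]
    refine h1.congr_fun ?_
    intro n
    have h3 : (((n + d : ℕ) : ℤ) + -(d : ℤ)).toNat = n := by omega
    have h4 : ((n + d).factorial : ℂ) = ((n + d).choose d : ℂ) * (n.factorial : ℂ) * (d.factorial : ℂ) := by
      have := Nat.add_choose_mul_factorial_mul_factorial n d
      exact_mod_cast this.symm
    have h5 : (n.factorial : ℂ) ≠ 0 := Nat.cast_ne_zero.2 (Nat.factorial_ne_zero n)
    have h6 : (d.factorial : ℂ) ≠ 0 := Nat.cast_ne_zero.2 (Nat.factorial_ne_zero d)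
    have h7 : ((n + d).choose d : ℂ) ≠ 0 :=
      Nat.cast_ne_zero.2 (Nat.choose_pos (Nat.le_add_left d n)).ne'
    rw [h3, h4]
    simp only [eval_pow, eval_add, eval_X, eval_C, Nat.cast_add]
    field_simp
    ring
  · obtain ⟨d, hd⟩ : ∃ d : ℕ, c = (d : ℤ) := ⟨c.toNat, by omega⟩
    subst hd
    obtain ⟨T, hT⟩ := exists_serG (X ^ β)
    refine ⟨T, fun u f => ?_⟩
    have hd0 : (-(d : ℤ)).toNat = 0 := by omega
    rw [hd0, pow_zero, one_mul, Int.toNat_natCast]
    simp only [if_neg hc]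
    have h1 := (hT.1 (u * f)).mul_left (f ^ d)
    have h2 : f ^ d * eval (u * f) T * exp (u * f) = f ^ d * (eval (u * f) T * exp (u * f)) := by
      ring
    rw [h2]
    refine h1.congr_fun ?_
    intro n
    have h3 : ((n : ℤ) + (d : ℤ)).toNat = n + d := by omega
    rw [h3]
    simp only [eval_pow, eval_X]
    push_cast
    ring

/-- Products of absolutely convergent series. -/
theorem hasSum_pi {ι : Type} [Fintype ι] (a : ι → ℕ → ℂ) (A : ι → ℂ)
    (h : ∀ j, HasSum (a j) (A j)) :
    HasSum (fun n : ι → ℕ => ∏ j, a j (n j)) (∏ j, A j) := by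
  classical
  revert a A
  refine Fintype.induction_empty_option (P := fun (ι : Type) [Fintype ι] =>
    ∀ (a : ι → ℕ → ℂ) (A : ι → ℂ), (∀ j, HasSum (a j) (A j)) →
      HasSum (fun n : ι → ℕ => ∏ j, a j (n j)) (∏ j, A j)) ?_ ?_ ?_ ι
  · intro α β _ e hα a A h
    letI : Fintype α := Fintype.ofEquiv β e.symm
    have h1 := hα (fun j => a (e j)) (fun j => A (e j)) (fun j => h (e j))
    have h2 : ∏ j, A j = ∏ j, A (e j) := (Equiv.prod_comp e A).symm
    rw [h2]
    rw [← (Equiv.arrowCongr e (Equiv.refl ℕ)).hasSum_iff]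
    refine h1.congr_fun fun n => ?_
    simp only [Function.comp]
    rw [← Equiv.prod_comp e]
    refine Finset.prod_congr rfl fun j _ => ?_
    simp [Equiv.arrowCongr]
  · intro a A _
    simp only [Finset.univ_eq_empty, Finset.prod_empty]
    exact hasSum_unique (f := fun _ : PEmpty → ℕ => (1 : ℂ))
  · intro α _ hα a A h
    have h1 := hα (fun j => a (some j)) (fun j => A (some j)) (fun j => h (some j))
    have h0 := h none
    have n0 : Summable fun n : ℕ => ‖a none n‖ := h0.summable.norm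
    have n1 : Summable fun m : α → ℕ => ‖∏ j, a (some j) (m j)‖ := h1.summable.norm
    have hs := summable_mul_of_summable_norm (f := a none)
      (g := fun m : α → ℕ => ∏ j, a (some j) (m j)) n0 n1
    have h2 := h0.mul h1 hs
    rw [Fintype.prod_option]
    let e : (Option α → ℕ) ≃ ℕ × (α → ℕ) := Equiv.piOptionEquivProd
    rw [← e.hasSum_iff] at h2
    refine h2.congr_fun fun n => ?_
    rw [Fintype.prod_option]
    rfl

end Pool.Agent.Y230.AR
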